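import Pool.Agent.Y981.QB.Dom

set_option autoImplicit false

/-! The number of steps of the critical self-avoiding walk in a domain. -/

namespace Pool.Agent.Y981.QB

open H978R2.Hex
open Pool.Agent.W832.HR (Nbr Traj xc Z emb lv HD Hd Bd)
open scoped ENNReal

/-- elementary bound for the cost of the speed `v` -/
theorem yv_le {v κ c l : ℝ} (hv : 0 < v) (hv1 : v ≤ 1) (hκ : 0 ≤ κ) (hc : 0 ≤ c) (hc1 : c ≤ 1)
    (hl : Real.exp 1 ≤ l) (hu : Real.log (1 / v) ≤ c * l / Real.log l + κ) :
    Yv v ≤ (1 + κ) * (1 + Real.log (2 + κ)) + (1 + κ) * Real.log l +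
      c * (2 + Real.log (2 + κ)) * l := by
  have hl0 : 0 < l := lt_of_lt_of_le (Real.exp_pos 1) hl
  have hll : 1 ≤ Real.log l := by
    rw [Real.le_log_iff_exp_le hl0]
    exact hl
  have hl1 : 1 ≤ l := by
    have := Real.add_one_le_exp (1 : ℝ)
    linarith
  set u := Real.log (1 / v) with hu'
  have hu0 : 0 ≤ u := Real.log_nonneg (by rw [le_div_iff₀ hv]; linarith)
  set B := Real.log (2 + κ) with hB
  have hB0 : 0 ≤ B := Real.log_nonneg (by linarith)
  have h1 : c * l / Real.log l ≤ c * l := div_le_self (by positivity) hll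
  have h2 : Real.log (1 + u) ≤ B + Real.log l := by
    rw [hB, ← Real.log_mul (by linarith) hl0.ne']
    refine Real.log_le_log (by linarith) ?_
    nlinarith
  unfold Yv
  rw [← hu']
  have h3 : (1 + u) * (1 + Real.log (1 + u)) ≤
      (1 + κ + c * l / Real.log l) * (1 + B + Real.log l) := by
    refine mul_le_mul (by linarith) (by linarith) ?_ (by positivity)
    have := Real.log_nonneg (show (1 : ℝ) ≤ 1 + u by linarith)
    linarith
  refine h3.trans ?_
  have h4 : c * l / Real.log l * Real.log l = c * l := by field_simp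
  have h5 : c * l / Real.log l * (1 + B) ≤ c * l * (1 + B) :=
    mul_le_mul_of_nonneg_right h1 (by linarith)
  have e : (1 + κ + c * l / Real.log l) * (1 + B + Real.log l) = (1 + κ) * (1 + B) +
      (1 + κ) * Real.log l + (c * l / Real.log l * (1 + B) + c * l / Real.log l * Real.log l) := by
    ring
  rw [e, h4]
  linarith

/-- **Number of steps of the critical walk in a domain.** -/
theorem dom_len (hM : S_LD) (W : Set ℂ) (hW : IsOpen W) (hc : IsConnected W) (a b : ℂ)
    (hab : a ≠ b) (ε ε' : ℝ) (hε : ε = 1 ∨ ε = -1) (hε' : ε' = 1 ∨ ε' = -1) (r : ℝ) (hr : 0 < r)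
    (ha : HD a ε r ⊆ W) (hb : HD b ε' r ⊆ W) (M : ℝ) :
    ∃ K : Set ℂ, K ⊆ W ∧ IsCompact K ∧ ∃ c C : ℝ, 0 < c ∧ 1 ≤ C ∧ ∀ δ : ℝ, 0 < δ → C * δ ≤ 1 →
      ∀ (D : Set V) (p q : V), Bd ε p → Bd ε' q →
      C * ‖(δ : ℂ) * emb p - a‖ ≤ 1 → C * ‖(δ : ℂ) * emb q - b‖ ≤ 1 →
      (∀ v : V, (δ : ℂ) * emb v ∈ K → v ∈ D) → Hd δ ε r p ⊆ D → Hd δ ε' r q ⊆ D →
      (∀ v ∈ D, ‖(δ : ℂ) * emb v‖ ≤ M) → 0 < Z D p q ∧ Z D p q < ⊤ ∧
        PE D p q (fun l => ((l.length - 1 : ℕ) : ℝ) ≤
          (1 / δ) ^ (1 + c / Real.log (Real.log (1 / δ)))) ≤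
        ENNReal.ofReal (Real.exp (-(1 / δ) ^ (4 / 5 : ℝ))) := by
  obtain ⟨K, hK, hKc, C₁, hC₁, h⟩ := Pool.Agent.Y981.Sup.low W hW hc a b hab ε ε' hε hε' r hr ha hb
  obtain ⟨C₃, hC₃, hcard⟩ := domain_card M
  obtain ⟨K', -, hquasi⟩ := Pool.Agent.Y981.Sup.quasi (max M 0) (le_max_right _ _)
  obtain ⟨C0, hC0, hld⟩ := hM
  have hab' : 0 < ‖a - b‖ := norm_pos_iff.2 (sub_ne_zero.2 hab)
  have hC1r : (9 : ℝ) ≤ C₁ := by exact_mod_cast hC₁
  set ρ : ℝ := min 1 (‖a - b‖ / 2) with hρ
  have hρ0 : 0 < ρ := lt_min one_pos (by positivity)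
  have hρ1 : ρ ≤ 1 := min_le_left _ _
  have hρ2 : ρ ≤ ‖a - b‖ / 2 := min_le_right _ _
  set κ : ℝ := Real.log (1 / ρ) with hκ
  have hκ0 : 0 ≤ κ := Real.log_nonneg (by rw [le_div_iff₀ hρ0]; linarith)
  have hρκ : ρ = Real.exp (-κ) := by
    rw [hκ, one_div, Real.log_inv, neg_neg, Real.exp_log hρ0]
  set B : ℝ := Real.log (2 + κ) with hB
  have hB0 : 0 ≤ B := Real.log_nonneg (by linarith)
  set c : ℝ := min 1 (1 / (60 * C0 * (2 + B))) with hcdef
  have hc0 : 0 < c := lt_min one_pos (by positivity)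
  have hc1 : c ≤ 1 := min_le_left _ _
  have hc2 : 60 * C0 * (2 + B) * c ≤ 1 := by
    have : c ≤ 1 / (60 * C0 * (2 + B)) := min_le_right _ _
    rw [le_div_iff₀ (by positivity)] at this
    linarith
  -- the lower bound for `l = log (1/δ)`
  set G : ℝ := 60 * C0 * (1 + κ) with hG
  have hG0 : 0 < G := by positivity
  set l0 : ℝ := 60 * (2 * (C0 * ((1 + κ) * (1 + B))) + 2 * (C0 * (1 + κ)) * |Real.log (2 * G)|) +
    20 * κ + 100 * (C₃ + C₁) + 100 with hl0
  set C : ℝ := C₁ + 100 + 4 / ‖a - b‖ + Real.exp l0 with hCdef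
  have hdiv : 0 < 4 / ‖a - b‖ := by positivity
  have hexp := Real.exp_pos l0
  have hC100 : 100 ≤ C := by rw [hCdef]; linarith
  have hCC1 : (C₁ : ℝ) ≤ C := by rw [hCdef]; linarith
  have hCab : 4 / ‖a - b‖ ≤ C := by rw [hCdef]; linarith
  have hCexp : Real.exp l0 ≤ C := by rw [hCdef]; linarith
  refine ⟨K, hK, hKc, c, C, hc0, by linarith, ?_⟩
  intro δ hδ hCδ D p q hp hq hpa hqb hKD hpD hqD hDM
  have hδ1 : δ ≤ 1 / 100 := by
    have := (mul_le_mul_of_nonneg_right hC100 hδ.le).trans hCδ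
    linarith
  have hmono : ∀ x : ℝ, 0 ≤ x → C * x ≤ 1 → C₁ * x ≤ 1 := fun x hx h1 =>
    (mul_le_mul_of_nonneg_right hCC1 hx).trans h1
  obtain ⟨hpq, hlow⟩ := h δ hδ (hmono δ hδ.le hCδ) D p q hp hq (hmono _ (norm_nonneg _) hpa)
    (hmono _ (norm_nonneg _) hqb) hKD hpD hqD
  have hZ := hlow D (Set.Subset.refl D)
  refine ⟨lt_of_lt_of_le (ENNReal.ofReal_pos.2 (by positivity)) hZ,
    (hquasi δ hδ (by linarith) D (fun v hv => (hDM v hv).trans (le_max_left _ _)) p q).trans_lt
      ENNReal.ofReal_lt_top, ?_⟩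
  obtain ⟨D', hD', hDc⟩ := hcard δ hδ (by linarith) D hDM
  set l : ℝ := Real.log (1 / δ) with hl
  have hlge : l0 ≤ l := by
    rw [hl, Real.le_log_iff_exp_le (by positivity), le_div_iff₀ hδ]
    exact (mul_le_mul_of_nonneg_right hCexp hδ.le).trans hCδ
  have hA1 : 0 ≤ C0 * ((1 + κ) * (1 + B)) := by positivity
  have hA2 : 0 ≤ C0 * (1 + κ) * |Real.log (2 * G)| := by positivity
  have hl100 : 100 * (C₃ + C₁) + 100 + 20 * κ ≤ l := by
    refine le_trans ?_ hlge
    rw [hl0]
    linarith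
  have hl1 : 100 ≤ l := by linarith
  have hlpos : 0 < l := by linarith
  have hδL : 1 / δ = Real.exp l := (Real.exp_log (by positivity)).symm
  have hcardL : (D'.card : ℝ) ≤ Real.exp (3 * l) := by
    refine hDc.trans ?_
    rw [hδL]
    have hC3L : C₃ ≤ Real.exp l := by
      have := Real.add_one_le_exp l
      linarith
    calc C₃ * Real.exp l ^ 2 ≤ Real.exp l * Real.exp l ^ 2 :=
          mul_le_mul_of_nonneg_right hC3L (by positivity)
      _ = Real.exp (3 * l) := by
          rw [show 3 * l = l + (l + l) by ring, Real.exp_add, Real.exp_add]; ring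
  have hdL : ρ / δ ≤ dst p q := by
    refine le_trans ?_ (far hδ (by
      have := mul_le_mul_of_nonneg_right hCab hab'.le
      rw [div_mul_cancel₀ _ hab'.ne'] at this
      linarith) (by linarith) hpa hqb)
    exact div_le_div_of_nonneg_right hρ2 hδ.le
  have hexp1l : Real.exp 1 ≤ l := by
    have := Real.exp_one_lt_d9
    linarith
  have hll1 : 1 ≤ Real.log l := by
    rw [Real.le_log_iff_exp_le hlpos]
    exact hexp1l
  -- the cost
  have hcost : ∀ v : ℝ, 0 < v → v ≤ 1 → Real.log (1 / v) ≤ c * l / Real.log l + κ →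
      C0 * Yv v ≤ l / 20 := by
    intro v hv hv1 hu
    have h1 := yv_le hv hv1 hκ0 hc0.le hc1 hexp1l hu
    have h2 := mul_le_mul_of_nonneg_left h1 hC0.le
    have h3 : Real.log l ≤ l / (2 * G) + Real.log (2 * G) := by
      have h4 : Real.log (l / (2 * G)) ≤ l / (2 * G) - 1 :=
        Real.log_le_sub_one_of_pos (by positivity)
      rw [Real.log_div hlpos.ne' (by positivity)] at h4
      linarith
    have h4 : C0 * ((1 + κ) * Real.log l) ≤ l / 120 + C0 * (1 + κ) * |Real.log (2 * G)| := by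
      have h5 : C0 * (1 + κ) * Real.log l ≤ C0 * (1 + κ) * (l / (2 * G) + |Real.log (2 * G)|) :=
        mul_le_mul_of_nonneg_left (h3.trans (by
          have := le_abs_self (Real.log (2 * G))
          linarith)) (by positivity)
      have h6 : C0 * (1 + κ) * (l / (2 * G)) = l / 120 := by
        rw [hG]
        have h7 : C0 * (1 + κ) ≠ 0 := by positivity
        field_simp
        ring
      have e5 : C0 * (1 + κ) * (l / (2 * G) + |Real.log (2 * G)|) =
          C0 * (1 + κ) * (l / (2 * G)) + C0 * (1 + κ) * |Real.log (2 * G)| := by ring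
      rw [e5, h6] at h5
      linarith
    have h7 : C0 * (c * (2 + B) * l) ≤ l / 60 := by
      have := mul_le_mul_of_nonneg_right hc2 hlpos.le
      linarith
    have h8 : C0 * ((1 + κ) * (1 + B)) + C0 * (1 + κ) * |Real.log (2 * G)| ≤ l / 120 := by
      have : l0 ≤ l := hlge
      rw [hl0] at this
      linarith
    have e : C0 * ((1 + κ) * (1 + B) + (1 + κ) * Real.log l + c * (2 + B) * l) =
        C0 * ((1 + κ) * (1 + B)) + C0 * ((1 + κ) * Real.log l) + C0 * (c * (2 + B) * l) := by ring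
    rw [e] at h2
    linarith
  have hpow45 : (1 / δ) ^ (4 / 5 : ℝ) = Real.exp (4 / 5 * l) := by
    rw [hδL, ← Real.exp_mul]
    congr 1
    ring
  rw [← hD', hpow45]
  refine crit_prob D' p q _ (Real.exp (-Real.exp (9 / 10 * l))) (δ ^ C₁)
    (Real.exp (-Real.exp (4 / 5 * l))) (Real.exp_pos _).le
    (by positivity) (by rw [hD']; exact hZ) ?_ ?_ (Real.exp_pos _).le
  · intro n hn F hF
    rcases Finset.eq_empty_or_nonempty F with hF0 | ⟨l1, hl1'⟩
    · rw [hF0, Finset.card_empty, Nat.cast_zero]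
      have := Pool.Agent.Y981.QB.mu0_pos
      positivity
    · have hfar : ρ / δ ≤ n ∧ (n : ℝ) ≤ (1 / δ) ^ (1 + c / Real.log l) := by
        obtain ⟨h1, h2, h3⟩ := hF l1 hl1'
        refine ⟨hdL.trans (sw_far h1 h2).1, ?_⟩
        have : n = l1.length - 1 := by have := h1.1; omega
        rw [this]
        exact h3
      have hn0 : (0 : ℝ) < n := lt_of_lt_of_le (by positivity) hfar.1
      set v : ℝ := ρ / δ / n with hv
      have hv0 : 0 < v := by positivity
      have hv1 : v ≤ 1 := by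
        rw [hv, div_le_one hn0]
        exact hfar.1
      have hvn : v * n = ρ / δ := by rw [hv]; field_simp
      have hlogv : Real.log (1 / v) ≤ c * l / Real.log l + κ := by
        have e1 : 1 / v = n * (δ / ρ) := by rw [hv]; field_simp
        rw [e1, Real.log_mul hn0.ne' (by positivity), Real.log_div hδ.ne' hρ0.ne']
        have h1 : Real.log n ≤ (1 + c / Real.log l) * l := by
          have := Real.log_le_log hn0 hfar.2
          rwa [Real.log_rpow (by positivity)] at this
        have h2 : Real.log δ = -l := by rw [hl, one_div, Real.log_inv, neg_neg]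
        have h3 : Real.log ρ = -κ := by rw [hκ, one_div, Real.log_inv, neg_neg]
        rw [h2, h3]
        have e2 : (1 + c / Real.log l) * l = l + c * l / Real.log l := by ring
        linarith
      have hcst := hcost v hv0 hv1 hlogv
      have hbig : Real.exp (9 / 10 * l) ≤ Real.exp (-(C0 * Yv v)) * n := by
        have h1 : Real.exp (-κ + l) ≤ n := by
          rw [Real.exp_add, ← hρκ, ← hδL]
          have := hfar.1
          rw [mul_one_div]
          exact this
        calc Real.exp (9 / 10 * l) ≤ Real.exp (-(C0 * Yv v) + (-κ + l)) :=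
              Real.exp_le_exp.mpr (by linarith)
          _ = Real.exp (-(C0 * Yv v)) * Real.exp (-κ + l) := Real.exp_add _ _
          _ ≤ _ := mul_le_mul_of_nonneg_left h1 (Real.exp_pos _).le
      have h1 : 1 ≤ Real.exp (-(C0 * Yv v)) * n := le_trans (Real.one_le_exp (by positivity)) hbig
      refine (hld v hv0 hv1 n h1 p F ?_).trans ?_
      · intro l2 hl2
        obtain ⟨h2, h3, -⟩ := hF l2 hl2
        obtain ⟨-, h4, h5⟩ := sw_far h2 h3
        refine ⟨h2, 0, n, by omega, le_rfl, ?_⟩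
        rw [h4, h5, hvn]
        exact hdL
      · have := Pool.Agent.Y981.QB.mu0_pos
        exact mul_le_mul_of_nonneg_left (Real.exp_le_exp.mpr (by linarith)) (by positivity)
  · -- numerics
    have hδpow : δ ^ C₁ = Real.exp (-(C₁ * l)) := by
      have h1 : δ = Real.exp (-l) := by
        rw [hl, one_div, Real.log_inv, neg_neg, Real.exp_log hδ]
      calc δ ^ C₁ = (Real.exp (-l)) ^ C₁ := by rw [← h1]
        _ = Real.exp (-(C₁ * l)) := by
            rw [← Real.exp_nat_mul]
            congr 1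
            ring
    rw [hδpow, ← Real.exp_add]
    calc (D'.card : ℝ) * Real.exp (-Real.exp (9 / 10 * l)) ≤
        Real.exp (3 * l) * Real.exp (-Real.exp (9 / 10 * l)) :=
          mul_le_mul_of_nonneg_right hcardL (Real.exp_pos _).le
      _ = Real.exp (3 * l + -Real.exp (9 / 10 * l)) := by rw [Real.exp_add]
      _ ≤ _ := by
          refine Real.exp_le_exp.mpr ?_
          have e1 : Real.exp (9 / 10 * l) = Real.exp (4 / 5 * l) * Real.exp (l / 10) := by
            rw [← Real.exp_add]; congr 1; ring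
          have h1 : l / 10 + 1 ≤ Real.exp (l / 10) := Real.add_one_le_exp _
          have h2 : 4 / 5 * l + 1 ≤ Real.exp (4 / 5 * l) := Real.add_one_le_exp _
          have h3 : 10 * (3 + C₁ : ℝ) ≤ Real.exp (4 / 5 * l) := by linarith
          have h5 := mul_le_mul_of_nonneg_right h3 (by positivity : (0 : ℝ) ≤ l / 10)
          rw [e1]
          have h4 : Real.exp (4 / 5 * l) * (l / 10 + 1) ≤
              Real.exp (4 / 5 * l) * Real.exp (l / 10) :=
            mul_le_mul_of_nonneg_left h1 (Real.exp_pos _).le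
          linarith

end Pool.Agent.Y981.QB
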