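import Pool.Agent.Y981.QB.Crit

set_option autoImplicit false

/-! The critical self-avoiding walk in domains: all segments, number of steps. -/

namespace Pool.Agent.Y981.QB

open H978R2.Hex
open Pool.Agent.W832.HR (Nbr Traj xc Z emb lv HD Hd Bd)
open scoped ENNReal

/-- a box which contains the domain -/
theorem domain_card (M : ℝ) : ∃ C : ℝ, 1 ≤ C ∧ ∀ δ : ℝ, 0 < δ → δ ≤ 1 / 2 →
    ∀ D : Set V, (∀ v ∈ D, ‖(δ : ℂ) * emb v‖ ≤ M) →
      ∃ D' : Finset V, (D' : Set V) = D ∧ (D'.card : ℝ) ≤ C * (1 / δ) ^ 2 := by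
  classical
  set M' := max M 0 with hM'
  have hM0 : 0 ≤ M' := le_max_right _ _
  refine ⟨(6 * (2 * M' + 1) + 3) ^ 2, by nlinarith, ?_⟩
  intro δ hδ hδ2 D hD
  have h3 : 2 ≤ 1 / δ := by
    rw [le_div_iff₀ hδ]
    linarith
  have h4 : (⌈1 / δ⌉₊ : ℝ) < 1 / δ + 1 := Nat.ceil_lt_add_one (by positivity)
  set R : ℕ := ⌈(2 * M' + 1) * (⌈1 / δ⌉₊ : ℝ)⌉₊ with hR
  set B : Finset V := Finset.Icc (-(R : ℤ)) R ×ˢ Finset.Icc (-(R : ℤ)) R with hB
  have hsub : D ⊆ (B : Set V) := by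
    intro v hv
    obtain ⟨h5, h6⟩ := Pool.Agent.Y981.Sup.box_of hδ hδ2 hM0 ((hD v hv).trans (le_max_left _ _))
    have h7 : (2 * M' + 1) * (⌈1 / δ⌉₊ : ℝ) ≤ R := Nat.le_ceil _
    have h8 := abs_le.1 (h5.trans h7)
    have h9 := abs_le.1 (h6.trans h7)
    rw [hB, Finset.mem_coe, Finset.mem_product, Finset.mem_Icc, Finset.mem_Icc]
    refine ⟨⟨?_, ?_⟩, ⟨?_, ?_⟩⟩
    · exact_mod_cast h8.1
    · exact_mod_cast h8.2
    · exact_mod_cast h9.1
    · exact_mod_cast h9.2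
  have hfin : D.Finite := B.finite_toSet.subset hsub
  refine ⟨hfin.toFinset, hfin.coe_toFinset, ?_⟩
  have h5 : hfin.toFinset ⊆ B := by
    intro v hv
    exact hsub (hfin.mem_toFinset.1 hv)
  have h6 := Finset.card_le_card h5
  have h7 : B.card = (2 * R + 1) * (2 * R + 1) := by
    rw [hB, Finset.card_product, Int.card_Icc]
    have : ((R : ℤ) + 1 - -(R : ℤ)).toNat = 2 * R + 1 := by omega
    rw [this]
  have h8 : (R : ℝ) < (2 * M' + 1) * (⌈1 / δ⌉₊ : ℝ) + 1 := Nat.ceil_lt_add_one (by positivity)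
  have h9 : (R : ℝ) ≤ (3 * (2 * M' + 1) + 1) * (1 / δ) := by
    have : (2 * M' + 1) * (⌈1 / δ⌉₊ : ℝ) ≤ (2 * M' + 1) * (3 * (1 / δ)) :=
      mul_le_mul_of_nonneg_left (by linarith) (by linarith)
    nlinarith
  have h10 : (2 * (R : ℝ) + 1) ≤ (6 * (2 * M' + 1) + 3) * (1 / δ) := by nlinarith
  calc (hfin.toFinset.card : ℝ) ≤ ((2 * R + 1) * (2 * R + 1) : ℕ) := by
        rw [← h7]; exact_mod_cast h6
    _ = (2 * (R : ℝ) + 1) ^ 2 := by push_cast; ring
    _ ≤ ((6 * (2 * M' + 1) + 3) * (1 / δ)) ^ 2 := pow_le_pow_left₀ (by positivity) h10 2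
    _ = _ := by ring

/-- the end points are far apart -/
theorem far {a b : ℂ} {δ C : ℝ} (hδ : 0 < δ) (hC : 4 ≤ C * ‖a - b‖) (hC0 : 0 < C) {p q : V}
    (hp : C * ‖(δ : ℂ) * emb p - a‖ ≤ 1) (hq : C * ‖(δ : ℂ) * emb q - b‖ ≤ 1) :
    ‖a - b‖ / 2 / δ ≤ dst p q := by
  rw [dst_emb, div_le_iff₀ hδ]
  have e1 : a - b = (((δ : ℂ) * emb q - b) - ((δ : ℂ) * emb p - a)) +
      (δ : ℂ) * (emb p - emb q) := by ring
  have e2 : ‖a - b‖ ≤ ‖(δ : ℂ) * emb q - b‖ + ‖(δ : ℂ) * emb p - a‖ +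
      δ * ‖emb p - emb q‖ := by
    calc ‖a - b‖ = ‖(((δ : ℂ) * emb q - b) - ((δ : ℂ) * emb p - a)) +
          (δ : ℂ) * (emb p - emb q)‖ := by rw [← e1]
      _ ≤ ‖((δ : ℂ) * emb q - b) - ((δ : ℂ) * emb p - a)‖ + ‖(δ : ℂ) * (emb p - emb q)‖ :=
          norm_add_le _ _
      _ ≤ _ := by
          rw [norm_mul, Complex.norm_real, Real.norm_of_nonneg hδ.le]
          have := norm_sub_le ((δ : ℂ) * emb q - b) ((δ : ℂ) * emb p - a)
          linarith
  nlinarith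

theorem sw_far {p q : V} {n : ℕ} {l : List V} (h : IsSW p n l) (hq : l.getLast? = some q) :
    dst p q ≤ n ∧ gt l 0 = p ∧ gt l n = q := by
  have h0 : gt l 0 = p := gt_zero h.2.1
  have hlen := h.1
  have h1 : gt l n = q := by
    rw [List.getLast?_eq_getElem?, hlen] at hq
    simp only [Nat.add_sub_cancel] at hq
    rw [gt_eq l n (by omega)]
    rw [List.getElem?_eq_getElem (by omega)] at hq
    exact Option.some.inj hq
  have h2 := dst_le (gt l) n (fun i hi => gt_adj h.2.2.1 i (by omega)) n le_rfl 0 (Nat.zero_le _)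
  rw [h0, h1] at h2
  simp only [Nat.cast_zero, sub_zero] at h2
  exact ⟨h2, h0, h1⟩

/-- **All segments of the critical walk in a domain.** -/
theorem dom_seg (hM : S_SEG) (W : Set ℂ) (hW : IsOpen W) (hc : IsConnected W) (a b : ℂ)
    (hab : a ≠ b) (ε ε' : ℝ) (hε : ε = 1 ∨ ε = -1) (hε' : ε' = 1 ∨ ε' = -1) (r : ℝ) (hr : 0 < r)
    (ha : HD a ε r ⊆ W) (hb : HD b ε' r ⊆ W) (M : ℝ) :
    ∃ K : Set ℂ, K ⊆ W ∧ IsCompact K ∧ ∃ c C : ℝ, 0 < c ∧ 1 ≤ C ∧ ∀ δ : ℝ, 0 < δ → C * δ ≤ 1 →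
      ∀ (D : Set V) (p q : V), Bd ε p → Bd ε' q →
      C * ‖(δ : ℂ) * emb p - a‖ ≤ 1 → C * ‖(δ : ℂ) * emb q - b‖ ≤ 1 →
      (∀ v : V, (δ : ℂ) * emb v ∈ K → v ∈ D) → Hd δ ε r p ⊆ D → Hd δ ε' r q ⊆ D →
      (∀ v ∈ D, ‖(δ : ℂ) * emb v‖ ≤ M) →
      0 < Z D p q ∧ Z D p q < ⊤ ∧ ∀ T : ℝ, Real.log (1 / δ) ^ 2 ≤ T →
        PE D p q (fun l => ∃ i j : ℕ, i < j ∧ j < l.length ∧
          C * ((j - i : ℕ) : ℝ) ^ (1 - c / Real.log T) < dst (gt l i) (gt l j)) ≤
        ENNReal.ofReal (Real.exp (-T)) := by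
  obtain ⟨K, hK, hKc, C₁, hC₁, h⟩ := Pool.Agent.Y981.Sup.low W hW hc a b hab ε ε' hε hε' r hr ha hb
  obtain ⟨C₃, hC₃, hcard⟩ := domain_card M
  obtain ⟨K', -, hquasi⟩ := Pool.Agent.Y981.Sup.quasi (max M 0) (le_max_right _ _)
  obtain ⟨c0, C0, hc0, hc01, hC0, hseg⟩ := hM
  have hab' : 0 < ‖a - b‖ := norm_pos_iff.2 (sub_ne_zero.2 hab)
  have hC1r : (9 : ℝ) ≤ C₁ := by exact_mod_cast hC₁
  set C₄ : ℝ := C₁ + 20 with hC₄
  set C : ℝ := C₁ + 100 + C0 + 32 / ‖a - b‖ + Real.exp (1 + C₃ + C₄) with hCdef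
  have hdiv : 0 < 32 / ‖a - b‖ := by positivity
  have hexp := Real.exp_pos (1 + C₃ + C₄)
  have hC100 : 100 ≤ C := by rw [hCdef]; linarith
  have hCC1 : (C₁ : ℝ) ≤ C := by rw [hCdef]; linarith
  have hCC0 : C0 ≤ C := by rw [hCdef]; linarith
  have hCab : 32 / ‖a - b‖ ≤ C := by rw [hCdef]; linarith
  have hCexp : Real.exp (1 + C₃ + C₄) ≤ C := by rw [hCdef]; linarith
  refine ⟨K, hK, hKc, c0 / 2, C, by positivity, by linarith, ?_⟩
  intro δ hδ hCδ D p q hp hq hpa hqb hKD hpD hqD hDM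
  have hδ1 : δ ≤ 1 / 100 := by
    by_contra hcon
    have : 1 / 100 < δ := not_le.1 hcon
    nlinarith
  have hmono : ∀ x : ℝ, 0 ≤ x → C * x ≤ 1 → C₁ * x ≤ 1 := fun x hx h1 =>
    (mul_le_mul_of_nonneg_right hCC1 hx).trans h1
  obtain ⟨hpq, hlow⟩ := h δ hδ (hmono δ hδ.le hCδ) D p q hp hq (hmono _ (norm_nonneg _) hpa)
    (hmono _ (norm_nonneg _) hqb) hKD hpD hqD
  have hZ := hlow D (Set.Subset.refl D)
  refine ⟨lt_of_lt_of_le (ENNReal.ofReal_pos.2 (by positivity)) hZ,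
    (hquasi δ hδ (by linarith) D (fun v hv => (hDM v hv).trans (le_max_left _ _)) p q).trans_lt
      ENNReal.ofReal_lt_top, fun T hT => ?_⟩
  obtain ⟨D', hD', hDc⟩ := hcard δ hδ (by linarith) D hDM
  set L : ℝ := Real.log (1 / δ) with hL
  have hLge : 1 + C₃ + C₄ ≤ L := by
    rw [hL, Real.le_log_iff_exp_le (by positivity), le_div_iff₀ hδ]
    exact (mul_le_mul_of_nonneg_right hCexp hδ.le).trans hCδ
  have hC4 : 29 ≤ C₄ := by rw [hC₄]; linarith
  have hL1 : 31 ≤ L := by linarith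
  have hT1 : L ≤ T := by nlinarith
  have hT0 : 0 < T := by linarith
  have hδL : 1 / δ = Real.exp L := (Real.exp_log (by positivity)).symm
  have hC3L : C₃ ≤ Real.exp L := by
    have := Real.add_one_le_exp L
    linarith
  have hcardL : (D'.card : ℝ) ≤ Real.exp (3 * L) := by
    refine hDc.trans ?_
    rw [hδL]
    calc C₃ * Real.exp L ^ 2 ≤ Real.exp L * Real.exp L ^ 2 :=
          mul_le_mul_of_nonneg_right hC3L (by positivity)
      _ = Real.exp (3 * L) := by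
          rw [show 3 * L = L + (L + L) by ring, Real.exp_add, Real.exp_add]; ring
  have hlogT : 1 < Real.log T := by
    have h1 : Real.log 31 ≤ Real.log T := Real.log_le_log (by norm_num) (by linarith)
    have h2 : (1 : ℝ) < Real.log 31 := by
      rw [Real.lt_log_iff_exp_lt (by norm_num)]
      have := Real.exp_one_lt_d9
      linarith
    linarith
  have hdL : ‖a - b‖ / 2 / δ ≤ dst p q :=
    far hδ (by
      have := mul_le_mul_of_nonneg_right hCab hab'.le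
      rw [div_mul_cancel₀ _ hab'.ne'] at this
      linarith) (by linarith) hpa hqb
  have h16 : 16 ≤ dst p q := by
    refine le_trans ?_ hdL
    rw [le_div_iff₀ hδ]
    have h1 := mul_le_mul_of_nonneg_right hCab hδ.le
    have h2 : 32 / ‖a - b‖ * δ ≤ 1 := h1.trans hCδ
    rw [div_mul_eq_mul_div, div_le_iff₀ hab'] at h2
    linarith
  rw [← hD']
  refine crit_prob D' p q _ (Real.exp (-(C₄ * T))) (δ ^ C₁) (Real.exp (-T)) (Real.exp_pos _).le
    (by positivity) (by rw [hD']; exact hZ) ?_ ?_ (Real.exp_pos _).le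
  · intro n hn F hF
    rcases Finset.eq_empty_or_nonempty F with hF0 | ⟨l0, hl0⟩
    · rw [hF0, Finset.card_empty, Nat.cast_zero]
      have := Pool.Agent.Y981.QB.mu0_pos
      positivity
    · have hn16 : 16 ≤ n := by
        obtain ⟨h1, h2, -⟩ := hF l0 hl0
        have h3 := (sw_far h1 h2).1
        have : (16 : ℝ) ≤ n := h16.trans h3
        exact_mod_cast this
      have hn16' : (16 : ℝ) ≤ n := by exact_mod_cast hn16
      have hlogn : Real.log n ≤ 3 * L := by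
        rw [Real.log_le_iff_le_exp (by linarith)]
        refine le_trans ?_ hcardL
        have : n ≤ D'.card := by omega
        exact_mod_cast this
      have hlogn0 : 0 ≤ Real.log n := Real.log_nonneg (by linarith)
      refine hseg n (C₄ * T) hn16 ?_ p F ?_
      · have h1 : Real.log n ^ 2 ≤ (3 * L) ^ 2 := pow_le_pow_left₀ hlogn0 hlogn 2
        nlinarith
      · intro l hl
        obtain ⟨h1, h2, i, j, hij, hj, hd⟩ := hF l hl
        refine ⟨h1, i, j, hij, by have := h1.1; omega, ?_⟩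
        refine lt_of_le_of_lt ?_ hd
        have hm1 : (1 : ℝ) ≤ ((j - i : ℕ) : ℝ) := by
          have : 1 ≤ j - i := by omega
          exact_mod_cast this
        have hlogC : Real.log (C₄ * T) ≤ 2 * Real.log T := by
          rw [Real.log_mul (by linarith) hT0.ne']
          have : Real.log C₄ ≤ Real.log T := Real.log_le_log (by linarith) (by linarith)
          linarith
        have hlogC0 : 0 < Real.log (C₄ * T) := Real.log_pos (by nlinarith)
        have hexpo : c0 / 2 / Real.log T ≤ c0 / Real.log (C₄ * T) := by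
          rw [div_div]
          exact div_le_div_of_nonneg_left hc0.le hlogC0 hlogC
        exact mul_le_mul hCC0 (Real.rpow_le_rpow_of_exponent_le hm1 (by linarith))
          (by positivity) (by linarith)
  · -- numerics
    have hδpow : δ ^ C₁ = Real.exp (-(C₁ * L)) := by
      have h1 : δ = Real.exp (-L) := by
        rw [hL, one_div, Real.log_inv, neg_neg, Real.exp_log hδ]
      calc δ ^ C₁ = (Real.exp (-L)) ^ C₁ := by rw [← h1]
        _ = Real.exp (-(C₁ * L)) := by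
            rw [← Real.exp_nat_mul]
            congr 1
            ring
    rw [hδpow, ← Real.exp_add]
    calc (D'.card : ℝ) * Real.exp (-(C₄ * T)) ≤ Real.exp (3 * L) * Real.exp (-(C₄ * T)) :=
          mul_le_mul_of_nonneg_right hcardL (Real.exp_pos _).le
      _ = Real.exp (3 * L + -(C₄ * T)) := by rw [Real.exp_add]
      _ ≤ _ := by
          refine Real.exp_le_exp.mpr ?_
          rw [hC₄]
          nlinarith

end Pool.Agent.Y981.QB
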