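import Pool.Agent.H978R2.Hex.Defs

set_option autoImplicit false

/-!
# Almost power law upper bound for the size of the self-avoiding walk on the honeycomb lattice

Definitions and statements (as propositions). `V = ℤ × ℤ` is the honeycomb lattice in brick-wall
coordinates, `Adj` the adjacency relation, `pos : V → ℂ` the embedding with edges of length one,
`mu0 = √(2+√2)` (all in `Pool/Agent/H978R2/Hex/Defs.lean`).
-/

namespace Pool.Agent.Y981.QB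

open H978R2.Hex

/-- level of a vertex -/
def lev (v : V) : ℤ := v.1 - v.2

/-- euclidean distance of two vertices -/
noncomputable def dst (u v : V) : ℝ := ‖pos u - pos v‖

/-- `l` is (the list of the vertices of) an `n`-step self-avoiding walk from `v` -/
def IsSW (v : V) (n : ℕ) (l : List V) : Prop :=
  l.length = n + 1 ∧ l.head? = some v ∧ l.IsChain Adj ∧ l.Nodup

/-- the list as a function -/
def gt (l : List V) (i : ℕ) : V := l.getD i (0, 0)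

/-- The path `γ 0, …, γ m` is light: its end points have distance at least `lam * W`, but it is
covered by fewer than `(1 + η) lam` (plus one) pieces which stay within distance `W` of their first
points. -/
def Light (η : ℝ) (W lam m : ℕ) (γ : ℕ → V) : Prop :=
  (lam : ℝ) * W ≤ dst (γ 0) (γ m) ∧
  ∃ (k : ℕ) (t : ℕ → ℕ), (k : ℝ) < (1 + η) * lam ∧ t 0 = 0 ∧ (∀ j < k, t j < t (j + 1)) ∧
    t k ≤ m ∧
    (∀ j < k, ∀ i, t j ≤ i → i < t (j + 1) → dst (γ i) (γ (t j)) < W) ∧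
    (∀ i, t k ≤ i → i ≤ m → dst (γ i) (γ (t k)) < W)

/-- `γ 0, …, γ n` contains `K` consecutive light pieces -/
def DL (η : ℝ) (W lam n : ℕ) (γ : ℕ → V) (K : ℕ) : Prop :=
  ∃ a b : ℕ → ℕ,
    (∀ j < K, a j ≤ b j ∧ b j ≤ n ∧ Light η W lam (b j - a j) (fun i => γ (a j + i))) ∧
    ∀ j, j + 1 < K → b j ≤ a (j + 1)

/-! ## Blocks -/

/-- The positions `p = (d, y)` of the blocks (levels `d + 1, …, d + 2 g`, rows `y, …, y + g - 1`) are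
even, and the blocks lie above each other between the levels `A` and `H`. -/
def BOK (g : ℤ) : ℤ → List (ℤ × ℤ) → ℤ → Prop
  | A, [], H => A + 2 ≤ H ∧ Even H
  | A, p :: B, H => A + 2 ≤ p.1 ∧ Even p.1 ∧ BOK g (p.1 + 2 * g) B H

/-- `l` is a self-avoiding path which starts at `u`, is above the level of `u` afterwards, ends at
its first vertex of level `H + 1`, and respects the blocks `B`. -/
def Mid (u : V) (H g : ℤ) (B : List (ℤ × ℤ)) (l : List V) : Prop :=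
  l.head? = some u ∧ l.IsChain Adj ∧ l.Nodup ∧ 2 ≤ l.length ∧
  (∀ v ∈ l.tail, lev u + 1 ≤ lev v) ∧ (∀ v ∈ l.dropLast, lev v ≤ H) ∧
  (∀ v ∈ l.getLast?, lev v = H + 1) ∧
  ∀ p ∈ B, ∀ v ∈ l, p.1 + 1 ≤ lev v → lev v ≤ p.1 + 2 * g → p.2 ≤ v.2 ∧ v.2 ≤ p.2 + g - 1

/-- **WIN**: critical mass of the paths which respect the blocks. -/
def S_WIN : Prop := ∀ (u : V) (H g : ℤ) (B : List (ℤ × ℤ)) (F : Finset (List V)),
  Even (u.1 + u.2) → 1 ≤ g → BOK g (lev u) B H → (∀ l ∈ F, Mid u H g B l) →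
  ∑ l ∈ F, (mu0⁻¹) ^ (l.length - 1) ≤ (Real.sqrt 2)⁻¹ ^ B.length

/-! ## Symmetries, number of walks -/

/-- directions between `-30` and `0` degrees -/
def Sector (c : ℂ) : Prop := c.im ≤ 0 ∧ Real.sqrt 3 * (-c.im) ≤ c.re

/-- **SYM** -/
def S_SYM : Prop := ∃ T : Fin 12 → V → V,
  (∀ i, Function.Injective (T i)) ∧ (∀ i u v, Adj u v → Adj (T i u) (T i v)) ∧
  (∀ i u v, dst (T i u) (T i v) = dst u v) ∧
  ∀ u v : V, ∃ i, Sector (pos (T i v) - pos (T i u))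

/-- **CN** -/
def S_CN : Prop := ∃ K : ℝ, 0 ≤ K ∧ ∀ (v : V) (n : ℕ) (F : Finset (List V)),
  (∀ l ∈ F, IsSW v n l) → (F.card : ℝ) ≤ mu0 ^ n * Real.exp (K * Real.log (n + 2) ^ 2)

/-- **SPLIT**: cutting at the times `a < b` -/
def S_SPLIT : Prop := ∀ (m a b : ℕ) (X Y Z : ℝ) (F : Finset (List V)), a ≤ b → b ≤ m →
  0 ≤ X → 0 ≤ Y → 0 ≤ Z → (∀ l ∈ F, l.length = m + 1) →
  (∀ G : Finset (List V), (∀ l ∈ G, ∃ l' ∈ F, l = l'.take (a + 1)) → (G.card : ℝ) ≤ X) →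
  (∀ (u : V) (G : Finset (List V)), (∀ l ∈ G, l.head? = some u ∧
    ∃ l' ∈ F, l = (l'.drop a).take (b - a + 1)) → (G.card : ℝ) ≤ Y) →
  (∀ (u : V) (G : Finset (List V)), (∀ l ∈ G, l.head? = some u ∧
    ∃ l' ∈ F, l = l'.drop b) → (G.card : ℝ) ≤ Z) →
  (F.card : ℝ) ≤ X * Y * Z

/-! ## Deterministic statements -/

/-- **G2**: levels of the points at the block times: most good blocks are clean. `a j` is the level
of the `j`-th point, the block `b` consists of the times `L b, …, L (b + 1)`. -/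
def S_G2 : Prop := ∀ (L B W β : ℕ) (a : ℕ → ℤ) (G : Finset ℕ), 1 ≤ L → 1 ≤ W →
  (∀ j < L * B, |a (j + 1) - a j| ≤ 2 * W) →
  (∀ b ∈ G, b < B ∧ (∀ q < L, a (L * b + q) ≤ a (L * b + q + 1)) ∧
    a (L * b) + L * W ≤ a (L * (b + 1))) →
  B ≤ G.card + β →
  ∃ C ⊆ G, B ≤ C.card + 11 * β ∧
    ∀ b ∈ C, (∀ j ≤ L * b, a j ≤ a (L * b)) ∧ ∀ j, L * (b + 1) ≤ j → j ≤ L * B →
      a (L * (b + 1)) ≤ a j

/-- number of points in a block -/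
def LL : ℕ := 6400
/-- number of tube blocks in a clean block -/
def NS : ℕ := 200

/-- **G1**: what remains of the plane geometry. -/
def S_G1 : Prop := ∀ (W lam m : ℕ) (γ : ℕ → V), 10 ^ 13 ≤ W → 10 ^ 13 ≤ lam →
  (∀ i < m, Adj (γ i) (γ (i + 1))) → Light (1 / 10 ^ 12) W lam m γ →
  Sector (pos (γ m) - pos (γ 0)) →
  ∃ (κ : ℝ) (k : ℕ) (t : ℕ → ℕ) (G : Finset ℕ), 0 ≤ κ ∧ κ ≤ 1 / 4 ∧
    (1 - 1 / 10 ^ 12) * (lam : ℝ) ≤ k ∧ (k : ℝ) ≤ (1 + 1 / 10 ^ 12) * lam ∧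
    t 0 = 0 ∧ (∀ j < k, t j < t (j + 1)) ∧ t k ≤ m ∧
    (∀ j ≤ k, ∀ i, t j ≤ i → i ≤ m → (j < k → i ≤ t (j + 1)) →
      |lev (γ i) - lev (γ (t j))| ≤ 2 * W ∧ |(γ i).2 - (γ (t j)).2| ≤ W) ∧
    (k / LL : ℝ) - 1 - lam / 10 ^ 6 ≤ (G.card : ℝ) ∧
    ∀ b ∈ G, LL * (b + 1) ≤ k ∧
      (∀ q < LL, lev (γ (t (LL * b + q))) ≤ lev (γ (t (LL * b + q + 1)))) ∧
      lev (γ (t (LL * b))) + (34 * NS + 9) * W ≤ lev (γ (t (LL * (b + 1)))) ∧
      ∀ i, t (LL * b) ≤ i → i ≤ t (LL * (b + 1)) →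
        |(((γ i).2 - (γ (t (LL * b))).2 : ℤ) : ℝ) +
          κ * ((lev (γ i) - lev (γ (t (LL * b))) : ℤ) : ℝ)| ≤ W

/-- the tube blocks in the clean block which starts near the point with level `W p.1` and row
`W p.2`, slope `j / 12800` -/
def subs (W j : ℤ) (p : ℤ × ℤ) : List (ℤ × ℤ) :=
  (List.range NS).map (fun i : ℕ => (W * p.1 + 6 * W + 34 * W * i,
    W * p.2 - 3 * W - 1 - (j * (6 * W + 34 * W * i + 32 * W)) / 12800))

/-- all the tube blocks of a code: a list of flags (is the block clean?) and increments -/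
def wins (W j : ℤ) : ℤ × ℤ → List (Bool × ℤ × ℤ) → List (ℤ × ℤ)
  | _, [] => []
  | p, c :: cs => (if c.1 then subs W j p else []) ++ wins W j (p.1 + c.2.1, p.2 + c.2.2) cs

/-- **GEO**: the code of a light path. -/
def S_GEO : Prop := ∀ (W lam m : ℕ) (γ : ℕ → V), 10 ^ 13 ≤ W → Even W → 10 ^ 13 ≤ lam →
  (∀ i < m, Adj (γ i) (γ (i + 1))) → Light (1 / 10 ^ 12) W lam m γ →
  Sector (pos (γ m) - pos (γ 0)) →
  ∃ (j : ℕ) (cs : List (Bool × ℤ × ℤ)) (a b : ℕ) (H : ℤ), j ≤ 3200 ∧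
    (cs.length : ℝ) ≤ (1 + 1 / 10 ^ 12) * lam / 6400 ∧
    (∀ c ∈ cs, |c.2.1| ≤ 12800 ∧ |c.2.2| ≤ 12800) ∧
    (lam : ℝ) / 12800 ≤ ((cs.filter (fun c => c.1)).length : ℝ) ∧
    a < b ∧ b ≤ m ∧ Even ((γ a).1 + (γ a).2) ∧
    BOK (16 * W) (lev (γ a)) (wins W j (lev (γ 0) / W, (γ 0).2 / W) cs) H ∧
    (∀ i, a < i → i ≤ b → lev (γ a) + 1 ≤ lev (γ i)) ∧
    (∀ i, a ≤ i → i < b → lev (γ i) ≤ H) ∧ lev (γ b) = H + 1 ∧
    ∀ p ∈ wins W j (lev (γ 0) / W, (γ 0).2 / W) cs, ∀ i, a ≤ i → i ≤ b →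
      p.1 + 1 ≤ lev (γ i) → lev (γ i) ≤ p.1 + 2 * (16 * W) →
      p.2 ≤ (γ i).2 ∧ (γ i).2 ≤ p.2 + 16 * W - 1

/-- **DET**: if there are few light pieces at all scales, then the path is long. -/
def S_DET : Prop := ∀ (η : ℝ) (w0 lam I K n a b : ℕ) (γ : ℕ → V), 0 < η → η ≤ 1 → 1 ≤ w0 →
  1 ≤ lam → 1 ≤ K → (∀ i < n, Adj (γ i) (γ (i + 1))) → a ≤ b → b ≤ n →
  (∀ i < I, ¬ DL η (w0 * lam ^ i) lam n γ K) →
  16 / η * K * (w0 * (lam : ℝ) ^ I) ≤ dst (γ a) (γ b) →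
  dst (γ a) (γ b) * (1 + η / 2) ^ I ≤ 3 * w0 * n

/-! ## Counting statements -/

/-- **CNT**: walks with `K` consecutive light pieces. -/
def S_CNT : Prop := ∀ (η A C : ℝ) (W lam n K : ℕ), 0 ≤ C →
  (∀ (v : V) (m : ℕ) (F : Finset (List V)), m ≤ n → (∀ l ∈ F, IsSW v m l) →
    (F.card : ℝ) ≤ mu0 ^ m * Real.exp C) →
  (∀ (v : V) (m : ℕ) (F : Finset (List V)), m ≤ n →
    (∀ l ∈ F, IsSW v m l ∧ Light η W lam m (gt l)) → (F.card : ℝ) ≤ mu0 ^ m * Real.exp A) →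
  ∀ (v : V) (F : Finset (List V)), (∀ l ∈ F, IsSW v n l ∧ DL η W lam n (gt l) K) →
    (F.card : ℝ) ≤ mu0 ^ n * ((n : ℝ) + 1) ^ (2 * K) * Real.exp ((K + 1) * C + K * A)

/-- **LIGHT**: light walks are rare. -/
def S_LIGHT : Prop := ∃ K c : ℝ, 0 ≤ K ∧ 0 < c ∧ ∀ W lam m : ℕ, 10 ^ 13 ≤ W → Even W →
  10 ^ 13 ≤ lam → ∀ (v : V) (F : Finset (List V)),
  (∀ l ∈ F, IsSW v m l ∧ Light (1 / 10 ^ 12) W lam m (gt l)) →
  (F.card : ℝ) ≤ mu0 ^ m * Real.exp (K * Real.log (m + 2) ^ 2 - c * lam)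

/-- **MAIN** -/
def S_MAIN : Prop := ∃ c : ℝ, 0 < c ∧ ∃ n0 : ℕ, ∀ n : ℕ, n0 ≤ n → ∀ (v : V) (F : Finset (List V)),
  (∀ l ∈ F, IsSW v n l ∧ ∃ i j : ℕ, i ≤ n ∧ j ≤ n ∧
    (n : ℝ) ^ (1 - c / Real.log (Real.log n)) ≤ dst (gt l i) (gt l j)) →
  (F.card : ℝ) ≤ mu0 ^ n * Real.exp (-(n : ℝ) ^ (1 / 5 : ℝ))

end Pool.Agent.Y981.QB
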