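import Pool.Agent.Y981.QB.Stm

set_option autoImplicit false

/-! Generic counting lemmas. -/

namespace Pool.Agent.Y981.QB

open H978R2.Hex

/-- finite set of the lists of length at most `N` with entries in `S` -/
theorem lists_count {α : Type*} [DecidableEq α] (S : Finset α) (hS : S.Nonempty) (N : ℕ) :
    ∃ L : Finset (List α), L.card ≤ (N + 1) * S.card ^ N ∧
      ∀ l : List α, l.length ≤ N → (∀ x ∈ l, x ∈ S) → l ∈ L := by
  classical
  refine ⟨(Finset.range (N + 1)).biUnion (fun n =>
    (Finset.univ : Finset (Fin n → S)).image (fun f => List.ofFn (fun i => (f i : α)))), ?_, ?_⟩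
  · have h1 : ∀ n ∈ Finset.range (N + 1), ((Finset.univ : Finset (Fin n → S)).image
        (fun f => List.ofFn (fun i => (f i : α)))).card ≤ S.card ^ N := by
      intro n hn
      refine Finset.card_image_le.trans ?_
      rw [Finset.card_univ, Fintype.card_fun, Fintype.card_fin, Fintype.card_coe]
      exact Nat.pow_le_pow_right (Finset.card_pos.mpr hS) (by
        have := Finset.mem_range.mp hn
        omega)
    have h2 := Finset.card_biUnion_le_card_mul (Finset.range (N + 1)) _ _ h1
    rwa [Finset.card_range] at h2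
  · intro l hl hx
    rw [Finset.mem_biUnion]
    refine ⟨l.length, Finset.mem_range.mpr (by omega), ?_⟩
    rw [Finset.mem_image]
    refine ⟨fun i => ⟨l.get i, hx _ (List.get_mem l i)⟩, Finset.mem_univ _, ?_⟩
    simp

/-- union bound -/
theorem union_bound {α β : Type*} [DecidableEq α] [DecidableEq β] (F : Finset α) (C : Finset β)
    (R : α → β → Prop) (Y : ℝ) (h : ∀ x ∈ F, ∃ c ∈ C, R x c)
    (hY : ∀ c ∈ C, ∀ G : Finset α, G ⊆ F → (∀ x ∈ G, R x c) → (G.card : ℝ) ≤ Y) :
    (F.card : ℝ) ≤ C.card * Y := by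
  classical
  have h1 : F ⊆ C.biUnion (fun c => F.filter (fun x => R x c)) := by
    intro x hx
    obtain ⟨c, hc, hr⟩ := h x hx
    exact Finset.mem_biUnion.mpr ⟨c, hc, Finset.mem_filter.mpr ⟨hx, hr⟩⟩
  have h2 : (F.card : ℝ) ≤ ((C.biUnion (fun c => F.filter (fun x => R x c))).card : ℝ) := by
    exact_mod_cast Finset.card_le_card h1
  have h3 : ((C.biUnion (fun c => F.filter (fun x => R x c))).card : ℝ) ≤
      ∑ c ∈ C, ((F.filter (fun x => R x c)).card : ℝ) := by
    exact_mod_cast Finset.card_biUnion_le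
  have h4 : ∑ c ∈ C, ((F.filter (fun x => R x c)).card : ℝ) ≤ ∑ _c ∈ C, Y :=
    Finset.sum_le_sum (fun c hc => hY c hc _ (Finset.filter_subset _ _)
      (fun x hx => (Finset.mem_filter.mp hx).2))
  rw [Finset.sum_const, nsmul_eq_mul] at h4
  linarith

/-! ## lists as functions -/

theorem gt_eq (l : List V) (i : ℕ) (h : i < l.length) : gt l i = l[i] := by
  unfold gt
  rw [List.getD_eq_getElem?_getD, List.getElem?_eq_getElem h, Option.getD_some]

theorem gt_map (T : V → V) (l : List V) (i : ℕ) (h : i < l.length) :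
    gt (l.map T) i = T (gt l i) := by
  rw [gt_eq _ _ (by simpa using h), gt_eq _ _ h]
  simp

theorem gt_drop (l : List V) (a i : ℕ) (h : a + i < l.length) :
    gt (l.drop a) i = gt l (a + i) := by
  rw [gt_eq _ _ (by simp; omega), gt_eq _ _ h]
  simp

theorem gt_take (l : List V) (a i : ℕ) (h : i < l.length) (h2 : i < a) :
    gt (l.take a) i = gt l i := by
  rw [gt_eq _ _ (by simp; omega), gt_eq _ _ h]
  simp

theorem gt_adj {l : List V} (h : l.IsChain Adj) (i : ℕ) (hi : i + 1 < l.length) :
    Adj (gt l i) (gt l (i + 1)) := by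
  rw [gt_eq _ _ (by omega), gt_eq _ _ hi]
  exact List.isChain_iff_getElem.mp h i hi

theorem gt_zero {l : List V} {v : V} (h : l.head? = some v) : gt l 0 = v := by
  cases l with
  | nil => simp at h
  | cons x t =>
    simp at h
    simp [gt, h]

theorem isSW_map (T : V → V) (hT : Function.Injective T) (hA : ∀ u v, Adj u v → Adj (T u) (T v))
    {v : V} {n : ℕ} {l : List V} (h : IsSW v n l) : IsSW (T v) n (l.map T) := by
  obtain ⟨h1, h2, h3, h4⟩ := h
  refine ⟨by simpa using h1, by simp [h2], ?_, ?_⟩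
  · rw [List.isChain_map]
    exact h3.imp (fun a b hab => hA a b hab)
  · exact h4.map hT

theorem isSW_take {v : V} {n a : ℕ} {l : List V} (h : IsSW v n l) (ha : a ≤ n) :
    IsSW v a (l.take (a + 1)) := by
  obtain ⟨h1, h2, h3, h4⟩ := h
  refine ⟨by rw [List.length_take, h1]; omega, ?_, ?_, ?_⟩
  · cases l with
    | nil => simp at h1
    | cons x t => simpa using h2
  · exact h3.take _
  · exact h4.sublist (List.take_sublist _ _)

theorem isSW_drop {v u : V} {n b : ℕ} {l : List V} (h : IsSW v n l) (hb : b ≤ n)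
    (hu : (l.drop b).head? = some u) : IsSW u (n - b) (l.drop b) := by
  obtain ⟨h1, h2, h3, h4⟩ := h
  refine ⟨by rw [List.length_drop, h1]; omega, hu, ?_, ?_⟩
  · exact h3.drop _
  · exact h4.sublist (List.drop_sublist _ _)

/-- the level changes by one along an edge -/
theorem lev_adj {u v : V} (h : Adj u v) : |lev v - lev u| ≤ 1 := by
  rcases h with h | h | ⟨h, _⟩ | ⟨h, _⟩ <;>
  · have h1 := congrArg Prod.fst h
    have h2 := congrArg Prod.snd h
    simp only [Prod.fst_sub, Prod.snd_sub] at h1 h2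
    unfold lev
    rw [abs_le]
    omega

theorem lev_bound (γ : ℕ → V) (m : ℕ) (h : ∀ i < m, Adj (γ i) (γ (i + 1))) :
    ∀ b ≤ m, |lev (γ b) - lev (γ 0)| ≤ b := by
  intro b
  induction b with
  | zero => intro _; simp
  | succ b ih =>
    intro hb
    have h1 := ih (by omega)
    have h2 := lev_adj (h b (by omega))
    have h3 : lev (γ (b + 1)) - lev (γ 0) =
        (lev (γ (b + 1)) - lev (γ b)) + (lev (γ b) - lev (γ 0)) := by ring
    rw [h3]
    refine (abs_add_le _ _).trans ?_
    push_cast
    linarith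

end Pool.Agent.Y981.QB
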