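import Pool.Agent.Y981.QB.Stm

set_option autoImplicit false

/-!
# All speeds and all segments (second part of project QB): statements
-/

namespace Pool.Agent.Y981.QB

open H978R2.Hex

/-- **SUM** -/
def S_SUM : Prop := ∀ K : ℝ, 0 ≤ K → ∃ C : ℝ, 0 ≤ C ∧ ∀ s : ℝ, 0 < s → s ≤ 1 → ∀ n : ℕ,
  ∑ m ∈ Finset.range (n + 1), Real.exp (K * Real.log (m + 2) ^ 2) * Real.exp (-s * m) ≤
    Real.exp (C * (1 + Real.log (1 / s)) ^ 2)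

/-- **CNT2**: walks with `K` consecutive light pieces, with generating functions. -/
def S_CNT2 : Prop := ∀ (η s A B : ℝ) (W lam n K : ℕ) (x y : ℕ → ℝ),
  (∀ m, 0 ≤ x m) → (∀ m, 0 ≤ y m) →
  (∀ (v : V) (m : ℕ) (F : Finset (List V)), m ≤ n → (∀ l ∈ F, IsSW v m l) →
    (F.card : ℝ) ≤ mu0 ^ m * x m) →
  (∀ (v : V) (m : ℕ) (F : Finset (List V)), m ≤ n →
    (∀ l ∈ F, IsSW v m l ∧ Light η W lam m (gt l)) → (F.card : ℝ) ≤ mu0 ^ m * y m) →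
  ∑ m ∈ Finset.range (n + 1), x m * Real.exp (-s * m) ≤ A →
  ∑ m ∈ Finset.range (n + 1), y m * Real.exp (-s * m) ≤ B →
  ∀ (v : V) (F : Finset (List V)), (∀ l ∈ F, IsSW v n l ∧ DL η W lam n (gt l) K) →
    (F.card : ℝ) ≤ mu0 ^ n * (Real.exp (s * n) * A * (A * B) ^ K)

/-- the cost of the speed `v` -/
noncomputable def Yv (v : ℝ) : ℝ :=
  (1 + Real.log (1 / v)) * (1 + Real.log (1 + Real.log (1 / v)))

/-- **LD**: large deviations for all speeds. -/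
def S_LD : Prop := ∃ C : ℝ, 0 < C ∧ ∀ v : ℝ, 0 < v → v ≤ 1 → ∀ n : ℕ,
  1 ≤ Real.exp (-(C * Yv v)) * n → ∀ (u : V) (F : Finset (List V)),
  (∀ l ∈ F, IsSW u n l ∧ ∃ i j : ℕ, i ≤ n ∧ j ≤ n ∧ v * n ≤ dst (gt l i) (gt l j)) →
  (F.card : ℝ) ≤ mu0 ^ n * Real.exp (-(Real.exp (-(C * Yv v)) * n))

/-- **SEG**: all segments. -/
def S_SEG : Prop := ∃ c C : ℝ, 0 < c ∧ c ≤ 1 ∧ 0 < C ∧ ∀ (n : ℕ) (T : ℝ), 16 ≤ n →
  Real.log n ^ 2 ≤ T → ∀ (u : V) (F : Finset (List V)),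
  (∀ l ∈ F, IsSW u n l ∧ ∃ i j : ℕ, i < j ∧ j ≤ n ∧
    C * ((j - i : ℕ) : ℝ) ^ (1 - c / Real.log T) < dst (gt l i) (gt l j)) →
  (F.card : ℝ) ≤ mu0 ^ n * Real.exp (-T)

end Pool.Agent.Y981.QB
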