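import Pool.Agent.Y981.QB.Br
import Pool.Agent.Y981.QB.Stm2

set_option autoImplicit false

/-! Final forms of the second part: all speeds, all segments. -/

namespace Pool.Agent.Y981.QB

open H978R2.Hex

theorem yv_nonneg {v : ℝ} (h0 : 0 < v) (h1 : v ≤ 1) : 1 ≤ Yv v := by
  have h2 : 0 ≤ Real.log (1 / v) := Real.log_nonneg (by rw [le_div_iff₀ h0]; linarith)
  have h3 : 0 ≤ Real.log (1 + Real.log (1 / v)) := Real.log_nonneg (by linarith)
  unfold Yv
  nlinarith

/-- all speeds -/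
theorem ld_prob {C : ℝ} (hC : 0 < C) (h : ∀ v : ℝ, 0 < v → v ≤ 1 → ∀ n : ℕ,
      1 ≤ Real.exp (-(C * Yv v)) * n → ∀ (u : V) (F : Finset (List V)),
      (∀ l ∈ F, IsSW u n l ∧ ∃ i j : ℕ, i ≤ n ∧ j ≤ n ∧ v * n ≤ dst (gt l i) (gt l j)) →
      (F.card : ℝ) ≤ mu0 ^ n * Real.exp (-(Real.exp (-(C * Yv v)) * n)))
    (v : ℝ) (hv : 0 < v) (hv1 : v ≤ 1) (n : ℕ) :
    prob n (fun ω => v * n ≤ diam ω) ≤ 3 * Real.exp (-(Real.exp (-(C * Yv v)) * n)) := by
  rcases le_or_gt 1 (Real.exp (-(C * Yv v)) * n) with h1 | h1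
  · have h2 : prob n (fun ω => v * n ≤ diam ω) ≤ Real.exp (-(Real.exp (-(C * Yv v)) * n)) := by
      refine prob_le_of_lists n _ (fun l => ∃ i j : ℕ, i ≤ n ∧ j ≤ n ∧
        v * n ≤ dst (gt l i) (gt l j)) _ ?_ (Real.exp_pos _).le (h v hv hv1 n h1 (0, 0))
      intro ω hω hd
      obtain ⟨i, j, hij⟩ := diam_attained ω
      refine ⟨i, j, by omega, by omega, ?_⟩
      rw [gt_ofFn, gt_ofFn]
      unfold dst
      rw [hij]
      exact hd
    have := Real.exp_pos (-(Real.exp (-(C * Yv v)) * n))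
    linarith
  · refine (prob_le_one _ _).trans ?_
    have h2 : Real.exp (-1) ≤ Real.exp (-(Real.exp (-(C * Yv v)) * n)) :=
      Real.exp_le_exp.mpr (by linarith)
    have h3 : (1 : ℝ) ≤ 3 * Real.exp (-1) := by
      have h4 := Real.exp_one_lt_d9
      rw [Real.exp_neg, ← div_eq_mul_inv, le_div_iff₀ (Real.exp_pos 1)]
      linarith
    linarith

/-- the cost of the speed `n^(-c/log log n)` -/
theorem yv_bound (C : ℝ) (hC : 0 < C) : ∃ c N : ℝ, 0 < c ∧ c ≤ 1 ∧ 0 < N ∧ ∀ n : ℕ, 16 ≤ n →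
    N ≤ n → (n : ℝ) ^ (4 / 5 : ℝ) ≤
      Real.exp (-(C * Yv ((n : ℝ) ^ (-(c / Real.log (Real.log n)))))) * n := by
  set c : ℝ := min 1 (1 / (60 * C)) with hc
  have hc0 : 0 < c := lt_min one_pos (by positivity)
  have hc1 : c ≤ 1 := min_le_left _ _
  have hc2 : 60 * C * c ≤ 1 := by
    have : c ≤ 1 / (60 * C) := min_le_right _ _
    rw [le_div_iff₀ (by positivity)] at this
    linarith
  set C2 : ℝ := 2 * C + C * Real.log (20 * C) with hC2
  refine ⟨c, Real.exp (10 * C2), hc0, hc1, Real.exp_pos _, fun n hn hN => ?_⟩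
  have hll := loglog_ge n hn
  have hn16 : (16 : ℝ) ≤ n := by exact_mod_cast hn
  have hn0 : (0 : ℝ) < n := by linarith
  set l := Real.log (n : ℝ) with hl
  set ll := Real.log l with hll2
  have hl1 : 1 ≤ l := by
    by_contra hcon
    push_neg at hcon
    have h0 : 0 ≤ l := Real.log_nonneg (by linarith)
    have := Real.log_nonpos h0 hcon.le
    linarith
  have hl0 : 0 < l := by linarith
  have hinv : Real.log (1 / (n : ℝ) ^ (-(c / ll))) = c / ll * l := by
    rw [one_div, ← Real.rpow_neg hn0.le, neg_neg, Real.log_rpow hn0]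
  set u : ℝ := c / ll * l with hu
  have hu0 : 0 ≤ u := by positivity
  have hucl : u * ll = c * l := by rw [hu]; field_simp
  have hul : u ≤ c * l := by nlinarith
  have hlog1 : Real.log (1 + u) ≤ 1 + ll := by
    have h1 : 1 + u ≤ Real.exp 1 * l := by
      have := Real.add_one_le_exp (1 : ℝ)
      nlinarith
    calc Real.log (1 + u) ≤ Real.log (Real.exp 1 * l) := Real.log_le_log (by linarith) h1
      _ = 1 + ll := by rw [Real.log_mul (Real.exp_pos 1).ne' hl0.ne', Real.log_exp]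
  have hllb : ll ≤ l / (20 * C) + Real.log (20 * C) := by
    have h1 : Real.log (l / (20 * C)) ≤ l / (20 * C) - 1 :=
      Real.log_le_sub_one_of_pos (by positivity)
    rw [Real.log_div hl0.ne' (by positivity)] at h1
    linarith
  have hY : C * Yv ((n : ℝ) ^ (-(c / ll))) ≤ C2 + l / 10 := by
    unfold Yv
    rw [hinv]
    have h1 : (1 + u) * (1 + Real.log (1 + u)) ≤ (1 + u) * (2 + ll) :=
      mul_le_mul_of_nonneg_left (by linarith) (by linarith)
    have h2 : (1 + u) * (2 + ll) ≤ 2 + ll + 3 * (c * l) := by nlinarith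
    have h3 : C * ((1 + u) * (1 + Real.log (1 + u))) ≤ C * (2 + ll + 3 * (c * l)) :=
      mul_le_mul_of_nonneg_left (h1.trans h2) hC.le
    have h4 : C * ll ≤ l / 20 + C * Real.log (20 * C) := by
      have := mul_le_mul_of_nonneg_left hllb hC.le
      have e : C * (l / (20 * C) + Real.log (20 * C)) = l / 20 + C * Real.log (20 * C) := by
        field_simp
      linarith
    have h5 : 60 * C * c * l ≤ 1 * l := mul_le_mul_of_nonneg_right hc2 hl0.le
    rw [hC2]
    linarith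
  have hlN : 10 * C2 ≤ l := by
    rw [hl, Real.le_log_iff_exp_le hn0]
    exact hN
  have e1 : (n : ℝ) ^ (4 / 5 : ℝ) = Real.exp (4 / 5 * l) := by
    rw [Real.rpow_def_of_pos hn0]
    congr 1
    ring
  have e2 : (n : ℝ) = Real.exp l := (Real.exp_log hn0).symm
  rw [e1]
  calc Real.exp (4 / 5 * l) ≤ Real.exp (-(C * Yv ((n : ℝ) ^ (-(c / ll)))) + l) :=
        Real.exp_le_exp.mpr (by linarith)
    _ = Real.exp (-(C * Yv ((n : ℝ) ^ (-(c / ll))))) * n := by
        rw [Real.exp_add]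
        congr 1
        exact e2.symm

/-- **Final form of the second part.** -/
theorem final2 (hM : S_LD) : ∃ c C : ℝ, 0 < c ∧ c ≤ 1 ∧ 0 < C ∧
    (∀ v : ℝ, 0 < v → v ≤ 1 → ∀ n : ℕ,
      prob n (fun ω => v * n ≤ diam ω) ≤ 3 * Real.exp (-(Real.exp (-(C * Yv v)) * n))) ∧
    (∀ n : ℕ, 16 ≤ n →
      prob n (fun ω => (n : ℝ) ^ (1 - c / Real.log (Real.log n)) ≤ diam ω) ≤
        C * Real.exp (-(n : ℝ) ^ (4 / 5 : ℝ))) ∧
    ∀ n : ℕ, 16 ≤ n → ∀ F : (Fin (n + 1) → V) → ℝ, (∀ ω ∈ saws n, F ω ≤ diam ω ^ 2) →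
      mean n F ≤ C * (n : ℝ) ^ (2 - c / Real.log (Real.log n)) := by
  obtain ⟨C0, hC0, hLD⟩ := hM
  obtain ⟨c, N, hcpos, hc1, hN, hY⟩ := yv_bound C0 hC0
  set C : ℝ := C0 + Real.exp N + N ^ 2 + 3628804 with hC
  have hN2 : 0 ≤ N ^ 2 := sq_nonneg N
  have hNe := Real.exp_pos N
  have hCe : Real.exp N ≤ C := by rw [hC]; linarith
  have hC3 : (3 : ℝ) ≤ C := by rw [hC]; linarith
  have hC0C : C0 ≤ C := by rw [hC]; linarith
  have hCN : N ^ 2 ≤ C := by rw [hC]; linarith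
  have hC4 : (3628804 : ℝ) ≤ C := by rw [hC]; linarith
  have hall : ∀ v : ℝ, 0 < v → v ≤ 1 → ∀ n : ℕ,
      prob n (fun ω => v * n ≤ diam ω) ≤ 3 * Real.exp (-(Real.exp (-(C0 * Yv v)) * n)) :=
    fun v hv hv1 n => ld_prob hC0 hLD v hv hv1 n
  have htyp : ∀ n : ℕ, 16 ≤ n →
      prob n (fun ω => (n : ℝ) ^ (1 - c / Real.log (Real.log n)) ≤ diam ω) ≤
        (Real.exp N + 3) * Real.exp (-(n : ℝ) ^ (4 / 5 : ℝ)) ∧ (N ≤ n →
      prob n (fun ω => (n : ℝ) ^ (1 - c / Real.log (Real.log n)) ≤ diam ω) ≤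
        3 * Real.exp (-(n : ℝ) ^ (4 / 5 : ℝ))) := by
    intro n hn
    have hn16 : (16 : ℝ) ≤ n := by exact_mod_cast hn
    have hn1 : (1 : ℝ) ≤ n := by linarith
    have hn0 : (0 : ℝ) < n := by linarith
    have hll := loglog_ge n hn
    have hbig : N ≤ n → prob n (fun ω => (n : ℝ) ^ (1 - c / Real.log (Real.log n)) ≤ diam ω) ≤
        3 * Real.exp (-(n : ℝ) ^ (4 / 5 : ℝ)) := by
      intro hNn
      set v : ℝ := (n : ℝ) ^ (-(c / Real.log (Real.log n))) with hv
      have hv0 : 0 < v := by positivity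
      have hv1 : v ≤ 1 := by
        rw [hv]
        refine Real.rpow_le_one_of_one_le_of_nonpos hn1 ?_
        have : 0 ≤ c / Real.log (Real.log n) := div_nonneg hcpos.le (by linarith)
        linarith
      have hvn : v * n = (n : ℝ) ^ (1 - c / Real.log (Real.log n)) := by
        rw [hv, sub_eq_add_neg, add_comm, Real.rpow_add hn0, Real.rpow_one]
      have h1 := hall v hv0 hv1 n
      rw [hvn] at h1
      refine h1.trans (mul_le_mul_of_nonneg_left (Real.exp_le_exp.mpr ?_) (by norm_num))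
      have := hY n hn hNn
      linarith
    refine ⟨?_, hbig⟩
    have hep := Real.exp_pos (-(n : ℝ) ^ (4 / 5 : ℝ))
    rcases le_or_gt N n with h1 | h1
    · refine (hbig h1).trans ?_
      nlinarith
    · refine (prob_le_one _ _).trans ?_
      have h2 : (n : ℝ) ^ (4 / 5 : ℝ) ≤ N := by
        calc (n : ℝ) ^ (4 / 5 : ℝ) ≤ (n : ℝ) ^ (1 : ℝ) :=
              Real.rpow_le_rpow_of_exponent_le hn1 (by norm_num)
          _ = n := Real.rpow_one _
          _ ≤ N := h1.le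
      have h3 : Real.exp (-N) ≤ Real.exp (-(n : ℝ) ^ (4 / 5 : ℝ)) :=
        Real.exp_le_exp.mpr (by linarith)
      have h4 : Real.exp N * Real.exp (-N) = 1 := by rw [← Real.exp_add]; simp
      nlinarith
  refine ⟨c, C, hcpos, hc1, by linarith, ?_, ?_, ?_⟩
  · intro v hv hv1 n
    refine (hall v hv hv1 n).trans (mul_le_mul_of_nonneg_left (Real.exp_le_exp.mpr ?_)
      (by norm_num))
    have hy := yv_nonneg hv hv1
    have h1 : Real.exp (-(C * Yv v)) ≤ Real.exp (-(C0 * Yv v)) :=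
      Real.exp_le_exp.mpr (by nlinarith)
    have h2 := mul_le_mul_of_nonneg_right h1 (Nat.cast_nonneg n : (0 : ℝ) ≤ (n : ℝ))
    linarith
  · intro n hn
    refine (htyp n hn).1.trans (mul_le_mul_of_nonneg_right ?_ (Real.exp_pos _).le)
    rw [hC]
    linarith
  · intro n hn F hF
    have hn16 : (16 : ℝ) ≤ n := by exact_mod_cast hn
    have hn1 : (1 : ℝ) ≤ n := by linarith
    have hn0 : (0 : ℝ) < n := by linarith
    have hll := loglog_ge n hn
    have hcl : c / Real.log (Real.log n) ≤ 1 := by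
      rw [div_le_one (by linarith)]; linarith
    have hcl0 : 0 ≤ c / Real.log (Real.log n) := div_nonneg hcpos.le (by linarith)
    have hP1 : (1 : ℝ) ≤ (n : ℝ) ^ (2 - c / Real.log (Real.log n)) :=
      Real.one_le_rpow hn1 (by linarith)
    have hdiam2 : ∀ ω ∈ saws n, diam ω ^ 2 ≤ (n : ℝ) ^ 2 := fun ω hω =>
      pow_le_pow_left₀ (diam_nonneg ω) (diam_le hω) 2
    rcases lt_or_ge (n : ℝ) N with hlt | hge
    · have h1 := mean_split F (fun _ => True) 0 ((n : ℝ) ^ 2) le_rfl (fun ω _ h => absurd trivial h)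
        (fun ω hω _ => (hF ω hω).trans (hdiam2 ω hω)) (by positivity)
      have h2 := prob_le_one n (fun _ => True)
      have h3 : (n : ℝ) ^ 2 ≤ C := (pow_le_pow_left₀ (by linarith) hlt.le 2).trans hCN
      nlinarith
    · have hprob := (htyp n hn).2 hge
      have h1 := mean_split F (fun ω => (n : ℝ) ^ (1 - c / Real.log (Real.log n)) ≤ diam ω)
        (((n : ℝ) ^ (1 - c / Real.log (Real.log n))) ^ 2) ((n : ℝ) ^ 2) (by positivity)
        (fun ω hω h => (hF ω hω).trans (pow_le_pow_left₀ (diam_nonneg ω) (not_le.mp h).le 2))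
        (fun ω hω _ => (hF ω hω).trans (hdiam2 ω hω)) (by positivity)
      have h2 : ((n : ℝ) ^ (1 - c / Real.log (Real.log n))) ^ 2 ≤
          (n : ℝ) ^ (2 - c / Real.log (Real.log n)) := by
        rw [← Real.rpow_natCast, ← Real.rpow_mul hn0.le]
        refine Real.rpow_le_rpow_of_exponent_le hn1 ?_
        push_cast
        linarith
      have h3 : (n : ℝ) ^ 2 * Real.exp (-(n : ℝ) ^ (4 / 5 : ℝ)) ≤ 6 := by
        set y : ℝ := (n : ℝ) ^ (4 / 5 : ℝ) with hy
        have hy0 : 0 ≤ y := by positivity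
        have hy1 : 1 ≤ y := Real.one_le_rpow hn1 (by norm_num)
        have e1 : (n : ℝ) ^ 2 ≤ y ^ 3 := by
          rw [hy, ← Real.rpow_natCast, ← Real.rpow_natCast, ← Real.rpow_mul hn0.le]
          refine Real.rpow_le_rpow_of_exponent_le hn1 ?_
          norm_num
        have h4 : y ^ 3 / (Nat.factorial 3 : ℕ) ≤ Real.exp y :=
          Real.pow_div_factorial_le_exp y hy0 3
        have h5 : ((Nat.factorial 3 : ℕ) : ℝ) = 6 := by norm_num [Nat.factorial]
        rw [h5, div_le_iff₀ (by norm_num)] at h4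
        rw [Real.exp_neg, ← div_eq_mul_inv, div_le_iff₀ (Real.exp_pos _)]
        linarith
      have h6 : (n : ℝ) ^ 2 *
          prob n (fun ω => (n : ℝ) ^ (1 - c / Real.log (Real.log n)) ≤ diam ω) ≤ 18 := by
        have := mul_le_mul_of_nonneg_left hprob (by positivity : (0 : ℝ) ≤ (n : ℝ) ^ 2)
        nlinarith
      nlinarith

/-- all segments -/
theorem seg_prob (hM : S_SEG) : ∃ c C : ℝ, 0 < c ∧ c ≤ 1 ∧ 0 < C ∧ ∀ (n : ℕ) (T : ℝ), 16 ≤ n →
    Real.log n ^ 2 ≤ T →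
    prob n (fun ω => ∃ i j : Fin (n + 1), i < j ∧
      C * ((j : ℝ) - i) ^ (1 - c / Real.log T) < ‖pos (ω i) - pos (ω j)‖) ≤ Real.exp (-T) := by
  obtain ⟨c, C, hc, hc1, hC, h⟩ := hM
  refine ⟨c, C, hc, hc1, hC, fun n T hn hT => ?_⟩
  refine prob_le_of_lists n _ (fun l => ∃ i j : ℕ, i < j ∧ j ≤ n ∧
    C * ((j - i : ℕ) : ℝ) ^ (1 - c / Real.log T) < dst (gt l i) (gt l j)) _ ?_
    (Real.exp_pos _).le (h n T hn hT (0, 0))
  rintro ω hω ⟨i, j, hij, hd⟩
  refine ⟨i, j, hij, by omega, ?_⟩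
  rw [gt_ofFn, gt_ofFn, Nat.cast_sub (by exact_mod_cast hij.le)]
  exact hd

end Pool.Agent.Y981.QB
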