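import Pool.Agent.Y981.QB.Fin0
import Pool.Agent.Y981.QB.Br2
import Pool.Agent.Y858.QB.Det
import Pool.Agent.Y872.QB.Cnt
import Pool.Agent.Y936.QB.Seg
import Pool.Agent.Y419.QB.Ld
import Pool.Agent.Y297.QB.Cnt2
import Pool.Agent.Y98.QB.Sum

set_option autoImplicit false

namespace Pool.Agent.Y981.QB

open H978R2.Hex

/-- all segments -/
theorem s_seg : S_SEG :=
  Pool.Agent.Y936.QB.seg s_light Pool.Agent.Y67.QB.cn
    (Pool.Agent.Y872.QB.cnt Pool.Agent.Y908.QB.split) Pool.Agent.Y858.QB.det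

/-- all speeds -/
theorem s_ld : S_LD :=
  Pool.Agent.Y419.QB.ld s_light Pool.Agent.Y67.QB.cn
    (Pool.Agent.Y297.QB.cnt2 Pool.Agent.Y908.QB.split) Pool.Agent.Y858.QB.det Pool.Agent.Y98.QB.sum

end Pool.Agent.Y981.QB
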