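import Pool.Agent.Y981.QB.LightP
import Pool.Agent.H978R2.Hex.Lower
import Pool.Agent.H978R2.Hex.Defs2

set_option autoImplicit false

/-! From lists to functions; probabilities and means for the uniform self-avoiding walk. -/

namespace Pool.Agent.Y981.QB

open H978R2.Hex

/-- lower bound for the number of walks -/
theorem saws_lower (n : ℕ) : mu0 ^ n ≤ (Set.ncard (saws n) : ℝ) := by
  refine le_trans ?_ (H978R2.Hex.lower' n)
  have h2 : 0 ≤ Real.sin (Real.pi / 8) * H978R2.Hex.Mass H978R2.Hex.SlitPlane n 5 :=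
    mul_nonneg H978R2.Hex.sin_pi_div_eight_pos.le (H978R2.Hex.mass_nonneg _ _ _)
  nlinarith [pow_pos Pool.Agent.Y981.QB.mu0_pos n]

theorem saws_card_pos (n : ℕ) : (0 : ℝ) < (Set.ncard (saws n) : ℝ) :=
  lt_of_lt_of_le (pow_pos Pool.Agent.Y981.QB.mu0_pos n) (saws_lower n)

theorem gt_ofFn {n : ℕ} (f : Fin (n + 1) → V) (i : Fin (n + 1)) :
    gt (List.ofFn f) i = f i := by
  rw [gt_eq _ _ (by rw [List.length_ofFn]; exact i.2), List.getElem_ofFn]

theorem isSW_ofFn {n : ℕ} {f : Fin (n + 1) → V} (hf : f ∈ saws n) :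
    IsSW (0, 0) n (List.ofFn f) := by
  obtain ⟨h1, h2, h3⟩ := hf
  refine ⟨List.length_ofFn, ?_, ?_, ?_⟩
  · rw [List.ofFn_succ, List.head?_cons, h1]
    rfl
  · rw [List.isChain_iff_getElem]
    intro i hi
    rw [List.length_ofFn] at hi
    have := h3 ⟨i, by omega⟩
    rw [List.getElem_ofFn, List.getElem_ofFn]
    exact this
  · exact List.nodup_ofFn.mpr h2

/-- diameter of a walk -/
noncomputable def diam {n : ℕ} (ω : Fin (n + 1) → V) : ℝ :=
  ⨆ p : Fin (n + 1) × Fin (n + 1), ‖pos (ω p.1) - pos (ω p.2)‖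

theorem le_diam {n : ℕ} (ω : Fin (n + 1) → V) (i j : Fin (n + 1)) :
    ‖pos (ω i) - pos (ω j)‖ ≤ diam ω := by
  unfold diam
  exact le_ciSup (f := fun p : Fin (n + 1) × Fin (n + 1) => ‖pos (ω p.1) - pos (ω p.2)‖)
    (Set.finite_range _).bddAbove (i, j)

theorem diam_attained {n : ℕ} (ω : Fin (n + 1) → V) :
    ∃ i j, ‖pos (ω i) - pos (ω j)‖ = diam ω := by
  unfold diam
  obtain ⟨p, hp⟩ := exists_eq_ciSup_of_finite
    (f := fun p : Fin (n + 1) × Fin (n + 1) => ‖pos (ω p.1) - pos (ω p.2)‖)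
  exact ⟨p.1, p.2, hp⟩

theorem diam_nonneg {n : ℕ} (ω : Fin (n + 1) → V) : 0 ≤ diam ω :=
  (norm_nonneg _).trans (le_diam ω 0 0)

theorem diam_le {n : ℕ} {ω : Fin (n + 1) → V} (h : ω ∈ saws n) : diam ω ≤ n := by
  obtain ⟨i, j, hij⟩ := diam_attained ω
  rw [← hij]
  have hadj : ∀ i < n, Adj (gt (List.ofFn ω) i) (gt (List.ofFn ω) (i + 1)) := fun i hi =>
    gt_adj (isSW_ofFn h).2.2.1 i (by rw [List.length_ofFn]; omega)
  have key : ∀ a b : Fin (n + 1), a ≤ b → ‖pos (ω a) - pos (ω b)‖ ≤ n := by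
    intro a b hab
    have h1 := dst_le (gt (List.ofFn ω)) n hadj b (by omega) a hab
    rw [gt_ofFn, gt_ofFn] at h1
    unfold dst at h1
    have h2 : (b : ℝ) ≤ n := by exact_mod_cast Nat.lt_succ_iff.mp b.2
    have h3 : (0 : ℝ) ≤ (a : ℕ) := Nat.cast_nonneg _
    linarith
  rcases le_total i j with h1 | h1
  · exact key i j h1
  · rw [norm_sub_rev]
    exact key j i h1

/-- probability -/
noncomputable def prob (n : ℕ) (A : (Fin (n + 1) → V) → Prop) : ℝ :=
  ({ω ∈ saws n | A ω}.ncard : ℝ) / ((saws n).ncard : ℝ)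

/-- mean -/
noncomputable def mean (n : ℕ) (F : (Fin (n + 1) → V) → ℝ) : ℝ :=
  (∑ᶠ ω ∈ saws n, F ω) / ((saws n).ncard : ℝ)

theorem prob_mono {n : ℕ} {A B : (Fin (n + 1) → V) → Prop} (h : ∀ ω ∈ saws n, A ω → B ω) :
    prob n A ≤ prob n B := by
  unfold prob
  have h1 : {ω ∈ saws n | A ω}.ncard ≤ {ω ∈ saws n | B ω}.ncard :=
    Set.ncard_le_ncard (fun ω hω => ⟨hω.1, h ω hω.1 hω.2⟩)
      ((saws_finite n).subset fun ω hω => hω.1)
  have h2 : ({ω ∈ saws n | A ω}.ncard : ℝ) ≤ {ω ∈ saws n | B ω}.ncard := by exact_mod_cast h1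
  exact div_le_div_of_nonneg_right h2 (Nat.cast_nonneg _)

theorem prob_le_one (n : ℕ) (A : (Fin (n + 1) → V) → Prop) : prob n A ≤ 1 := by
  unfold prob
  have h1 : {ω ∈ saws n | A ω}.ncard ≤ (saws n).ncard :=
    Set.ncard_le_ncard (fun ω hω => hω.1) (saws_finite n)
  exact div_le_one_of_le₀ (by exact_mod_cast h1) (Nat.cast_nonneg _)

theorem mean_mono {n : ℕ} {F G : (Fin (n + 1) → V) → ℝ} (h : ∀ ω ∈ saws n, F ω ≤ G ω) :
    mean n F ≤ mean n G := by
  unfold mean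
  refine div_le_div_of_nonneg_right ?_ (Nat.cast_nonneg _)
  rw [finsum_mem_eq_finite_toFinset_sum _ (saws_finite n),
    finsum_mem_eq_finite_toFinset_sum _ (saws_finite n)]
  exact Finset.sum_le_sum (fun ω hω => h ω ((Set.Finite.mem_toFinset _).1 hω))

/-- splitting a mean along an event -/
theorem mean_split {n : ℕ} (F : (Fin (n + 1) → V) → ℝ) (A : (Fin (n + 1) → V) → Prop) (a b : ℝ)
    (ha : 0 ≤ a) (h1 : ∀ ω ∈ saws n, ¬ A ω → F ω ≤ a) (h2 : ∀ ω ∈ saws n, A ω → F ω ≤ b) (hb : 0 ≤ b) :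
    mean n F ≤ a + b * prob n A := by
  classical
  have hc := saws_card_pos n
  unfold mean prob
  rw [div_le_iff₀ hc, add_mul, mul_assoc, div_mul_cancel₀ _ hc.ne']
  rw [finsum_mem_eq_finite_toFinset_sum _ (saws_finite n)]
  have e1 : ((saws n).ncard : ℝ) = ((saws_finite n).toFinset.card : ℝ) := by
    rw [Set.ncard_eq_toFinset_card _ (saws_finite n)]
  have hfinA : {ω ∈ saws n | A ω}.Finite := (saws_finite n).subset fun ω hω => hω.1
  have e2 : ({ω ∈ saws n | A ω}.ncard : ℝ) =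
      (((saws_finite n).toFinset.filter A).card : ℝ) := by
    rw [Set.ncard_eq_toFinset_card _ hfinA]
    congr 2
    ext ω
    simp
  rw [e1, e2]
  rw [← Finset.sum_filter_add_sum_filter_not (saws_finite n).toFinset A]
  have h3 : ∑ ω ∈ (saws_finite n).toFinset.filter A, F ω ≤
      b * (((saws_finite n).toFinset.filter A).card : ℝ) := by
    rw [mul_comm, ← nsmul_eq_mul]
    refine Finset.sum_le_card_nsmul _ _ _ (fun ω hω => ?_)
    rw [Finset.mem_filter, Set.Finite.mem_toFinset] at hω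
    exact h2 ω hω.1 hω.2
  have h4 : ∑ ω ∈ (saws_finite n).toFinset.filter (fun ω => ¬ A ω), F ω ≤
      a * ((saws_finite n).toFinset.card : ℝ) := by
    have h5 : ∑ ω ∈ (saws_finite n).toFinset.filter (fun ω => ¬ A ω), F ω ≤
        a * (((saws_finite n).toFinset.filter (fun ω => ¬ A ω)).card : ℝ) := by
      rw [mul_comm, ← nsmul_eq_mul]
      refine Finset.sum_le_card_nsmul _ _ _ (fun ω hω => ?_)
      rw [Finset.mem_filter, Set.Finite.mem_toFinset] at hω
      exact h1 ω hω.1 hω.2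
    refine h5.trans (mul_le_mul_of_nonneg_left ?_ ha)
    exact_mod_cast Finset.card_filter_le _ _
  linarith

/-- the number of the walks with large diameter, in terms of lists -/
theorem ncard_le_of_lists (n : ℕ) (A : (Fin (n + 1) → V) → Prop) (B : List V → Prop) (Y : ℝ)
    (hAB : ∀ ω ∈ saws n, A ω → B (List.ofFn ω))
    (h : ∀ F : Finset (List V), (∀ l ∈ F, IsSW (0, 0) n l ∧ B l) → (F.card : ℝ) ≤ Y) :
    ({ω ∈ saws n | A ω}.ncard : ℝ) ≤ Y := by
  classical
  have hfinA : {ω ∈ saws n | A ω}.Finite := (saws_finite n).subset fun ω hω => hω.1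
  have h1 := h (hfinA.toFinset.image List.ofFn) (by
    intro l hl
    obtain ⟨ω, hω, rfl⟩ := Finset.mem_image.mp hl
    rw [Set.Finite.mem_toFinset] at hω
    exact ⟨isSW_ofFn hω.1, hAB ω hω.1 hω.2⟩)
  rw [Finset.card_image_of_injective _ List.ofFn_injective] at h1
  rwa [Set.ncard_eq_toFinset_card _ hfinA]

theorem prob_le_of_lists (n : ℕ) (A : (Fin (n + 1) → V) → Prop) (B : List V → Prop) (Y : ℝ)
    (hAB : ∀ ω ∈ saws n, A ω → B (List.ofFn ω)) (hY : 0 ≤ Y)
    (h : ∀ F : Finset (List V), (∀ l ∈ F, IsSW (0, 0) n l ∧ B l) → (F.card : ℝ) ≤ mu0 ^ n * Y) :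
    prob n A ≤ Y := by
  have h1 := ncard_le_of_lists n A B _ hAB h
  unfold prob
  rw [div_le_iff₀ (saws_card_pos n)]
  refine h1.trans ?_
  rw [mul_comm]
  exact mul_le_mul_of_nonneg_left (saws_lower n) hY

theorem loglog_ge (n : ℕ) (hn : 16 ≤ n) : 1 ≤ Real.log (Real.log (n : ℝ)) := by
  have hn16 : (16 : ℝ) ≤ n := by exact_mod_cast hn
  have h2 := Real.log_two_gt_d9
  have h3 : Real.log 16 = 4 * Real.log 2 := by
    rw [show (16 : ℝ) = 2 ^ 4 by norm_num, Real.log_pow]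
    norm_num
  have h4 : Real.exp 1 ≤ Real.log n := by
    have h5 := Real.exp_one_lt_d9
    have h6 := Real.log_le_log (by norm_num : (0 : ℝ) < 16) hn16
    linarith
  calc (1 : ℝ) = Real.log (Real.exp 1) := (Real.log_exp 1).symm
    _ ≤ _ := Real.log_le_log (Real.exp_pos 1) h4

/-- **Final form.** -/
theorem final (hM : S_MAIN) : ∃ c C : ℝ, 0 < c ∧ c ≤ 1 ∧ 0 < C ∧ ∀ n : ℕ, 16 ≤ n →
    prob n (fun ω => (n : ℝ) ^ (1 - c / Real.log (Real.log n)) ≤ diam ω) ≤
      C * Real.exp (-(n : ℝ) ^ (1 / 5 : ℝ)) ∧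
    ∀ F : (Fin (n + 1) → V) → ℝ, (∀ ω ∈ saws n, F ω ≤ diam ω ^ 2) →
      mean n F ≤ C * (n : ℝ) ^ (2 - c / Real.log (Real.log n)) := by
  obtain ⟨c0, hc0, n0, hM⟩ := hM
  set c := min c0 1 with hc
  have hcpos : 0 < c := lt_min hc0 one_pos
  have hc1 : c ≤ 1 := min_le_right _ _
  have hcc : c ≤ c0 := min_le_left _ _
  refine ⟨c, Real.exp n0 + n0 ^ 2 + 3628801, hcpos, hc1, by positivity, fun n hn => ?_⟩
  have hn16 : (16 : ℝ) ≤ n := by exact_mod_cast hn
  have hn1 : (1 : ℝ) ≤ n := by linarith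
  have hn0 : (0 : ℝ) < n := by linarith
  have hll := loglog_ge n hn
  have hcl : c / Real.log (Real.log n) ≤ 1 := by
    rw [div_le_one (by linarith)]; linarith
  have hcl0 : 0 ≤ c / Real.log (Real.log n) := div_nonneg hcpos.le (by linarith)
  have hP1 : (1 : ℝ) ≤ (n : ℝ) ^ (2 - c / Real.log (Real.log n)) :=
    Real.one_le_rpow hn1 (by linarith)
  set C : ℝ := Real.exp n0 + n0 ^ 2 + 3628801 with hC
  have hCe : Real.exp n0 ≤ C := by rw [hC]; nlinarith [sq_nonneg (n0 : ℝ)]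
  have hCn : (n0 : ℝ) ^ 2 ≤ C := by rw [hC]; nlinarith [Real.exp_pos (n0 : ℝ)]
  have hC1 : (3628801 : ℝ) ≤ C := by rw [hC]; nlinarith [Real.exp_pos (n0 : ℝ), sq_nonneg (n0 : ℝ)]
  have hdiam2 : ∀ ω ∈ saws n, diam ω ^ 2 ≤ (n : ℝ) ^ 2 := fun ω hω =>
    pow_le_pow_left₀ (diam_nonneg ω) (diam_le hω) 2
  rcases lt_or_ge n n0 with hlt | hge
  · have hlt' : (n : ℝ) ≤ n0 := by exact_mod_cast hlt.le
    constructor
    · refine (prob_le_one _ _).trans ?_
      have h1 : (n : ℝ) ^ (1 / 5 : ℝ) ≤ n := by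
        calc (n : ℝ) ^ (1 / 5 : ℝ) ≤ (n : ℝ) ^ (1 : ℝ) :=
              Real.rpow_le_rpow_of_exponent_le hn1 (by norm_num)
          _ = n := Real.rpow_one _
      calc (1 : ℝ) = Real.exp n0 * Real.exp (-n0) := by rw [← Real.exp_add]; simp
        _ ≤ C * Real.exp (-(n : ℝ) ^ (1 / 5 : ℝ)) := by
            refine mul_le_mul hCe (Real.exp_le_exp.mpr (by linarith)) (Real.exp_pos _).le
              (by linarith)
    · intro F hF
      have h1 := mean_split F (fun _ => True) 0 ((n : ℝ) ^ 2) le_rfl (fun ω _ h => absurd trivial h)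
        (fun ω hω _ => (hF ω hω).trans (hdiam2 ω hω)) (by positivity)
      have h2 := prob_le_one n (fun _ => True)
      have h3 : (n : ℝ) ^ 2 ≤ C := (pow_le_pow_left₀ (by linarith) hlt' 2).trans hCn
      nlinarith
  · have hprob : prob n (fun ω => (n : ℝ) ^ (1 - c / Real.log (Real.log n)) ≤ diam ω) ≤
        Real.exp (-(n : ℝ) ^ (1 / 5 : ℝ)) := by
      refine prob_le_of_lists n _ (fun l => ∃ i j : ℕ, i ≤ n ∧ j ≤ n ∧
        (n : ℝ) ^ (1 - c0 / Real.log (Real.log n)) ≤ dst (gt l i) (gt l j)) _ ?_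
        (Real.exp_pos _).le (hM n hge (0, 0))
      intro ω hω hd
      obtain ⟨i, j, hij⟩ := diam_attained ω
      refine ⟨i, j, by omega, by omega, ?_⟩
      rw [gt_ofFn, gt_ofFn]
      unfold dst
      rw [hij]
      refine le_trans ?_ hd
      refine Real.rpow_le_rpow_of_exponent_le hn1 ?_
      have : c / Real.log (Real.log n) ≤ c0 / Real.log (Real.log n) :=
        div_le_div_of_nonneg_right hcc (by linarith)
      linarith
    constructor
    · refine hprob.trans ?_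
      have := Real.exp_pos (-(n : ℝ) ^ (1 / 5 : ℝ))
      nlinarith
    · intro F hF
      have h1 := mean_split F (fun ω => (n : ℝ) ^ (1 - c / Real.log (Real.log n)) ≤ diam ω)
        (((n : ℝ) ^ (1 - c / Real.log (Real.log n))) ^ 2) ((n : ℝ) ^ 2) (by positivity)
        (fun ω hω h => (hF ω hω).trans (pow_le_pow_left₀ (diam_nonneg ω) (not_le.mp h).le 2))
        (fun ω hω _ => (hF ω hω).trans (hdiam2 ω hω)) (by positivity)
      have h2 : ((n : ℝ) ^ (1 - c / Real.log (Real.log n))) ^ 2 ≤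
          (n : ℝ) ^ (2 - c / Real.log (Real.log n)) := by
        rw [← Real.rpow_natCast, ← Real.rpow_mul hn0.le]
        refine Real.rpow_le_rpow_of_exponent_le hn1 ?_
        push_cast
        linarith
      have h3 : (n : ℝ) ^ 2 * Real.exp (-(n : ℝ) ^ (1 / 5 : ℝ)) ≤ 3628800 := by
        set y : ℝ := (n : ℝ) ^ (1 / 5 : ℝ) with hy
        have hy0 : 0 ≤ y := by positivity
        have e1 : (n : ℝ) ^ 2 = y ^ 10 := by
          rw [hy, ← Real.rpow_natCast, ← Real.rpow_natCast, ← Real.rpow_mul hn0.le]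
          norm_num
        have h4 : y ^ 10 / (Nat.factorial 10 : ℕ) ≤ Real.exp y :=
          Real.pow_div_factorial_le_exp y hy0 10
        have h5 : ((Nat.factorial 10 : ℕ) : ℝ) = 3628800 := by norm_num [Nat.factorial]
        rw [h5, div_le_iff₀ (by norm_num)] at h4
        rw [e1, Real.exp_neg, ← div_eq_mul_inv, div_le_iff₀ (Real.exp_pos _)]
        linarith
      have h6 : (n : ℝ) ^ 2 *
          prob n (fun ω => (n : ℝ) ^ (1 - c / Real.log (Real.log n)) ≤ diam ω) ≤ 3628800 :=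
        (mul_le_mul_of_nonneg_left hprob (by positivity)).trans h3
      nlinarith

end Pool.Agent.Y981.QB
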