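import Pool.Agent.Y981.QB.Br2
import Pool.Agent.Y981.Sup2

set_option autoImplicit false

/-! The critical self-avoiding walk in domains: transfer of the estimates for `n`-step walks. -/

namespace Pool.Agent.Y981.QB

open H978R2.Hex
open Pool.Agent.W832.HR (Nbr Traj xc Z emb lv HD Hd Bd)
open scoped ENNReal

/-- critical mass of the trajectories with property `E` -/
noncomputable def ZE (D : Set V) (p q : V) (E : List V → Prop) : ℝ≥0∞ :=
  ∑' l : {l : List V // l ∈ Traj D p q ∧ E l}, xc ^ (l.1.length - 1)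

/-- critical probability of the property `E` -/
noncomputable def PE (D : Set V) (p q : V) (E : List V → Prop) : ℝ≥0∞ := ZE D p q E / Z D p q

theorem xc_eq : xc = ENNReal.ofReal (mu0⁻¹) := by
  unfold Pool.Agent.W832.HR.xc mu0
  rw [one_div]

theorem traj_isSW {D : Set V} {p q : V} {l : List V} (h : l ∈ Traj D p q) :
    IsSW p (l.length - 1) l := by
  obtain ⟨h1, h2, h3, h4, h5⟩ := h
  have hlen : 1 ≤ l.length := by
    cases l with
    | nil => simp at h1
    | cons x t => simp
  refine ⟨by omega, h1, ?_, h3⟩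
  exact h4.imp (fun a b hab => Pool.Agent.W832.HR.nbr_iff.1 hab)

theorem traj_length {D : Finset V} {p q : V} {l : List V} (h : l ∈ Traj (D : Set V) p q) :
    l.length ≤ D.card := by
  classical
  have h1 : l.toFinset ⊆ D := by
    intro x hx
    rw [List.mem_toFinset] at hx
    exact h.2.2.2.2 x hx
  have h2 := Finset.card_le_card h1
  rwa [List.toFinset_card_of_nodup h.2.2.1] at h2

/-- upper bound for the critical mass by the number of walks with a given number of steps -/
theorem crit_upper (D : Finset V) (p q : V) (E : List V → Prop) (Y : ℝ) (hY : 0 ≤ Y)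
    (h : ∀ n, n + 1 ≤ D.card → ∀ F : Finset (List V),
      (∀ l ∈ F, IsSW p n l ∧ l.getLast? = some q ∧ E l) → (F.card : ℝ) ≤ mu0 ^ n * Y) :
    ZE (D : Set V) p q E ≤ ENNReal.ofReal (D.card * Y) := by
  classical
  unfold ZE
  rcases Finset.eq_empty_or_nonempty D with hD | hD
  · have : IsEmpty {l : List V // l ∈ Traj (D : Set V) p q ∧ E l} := by
      refine ⟨fun l => ?_⟩
      have h1 := traj_length l.2.1
      have h2 := (traj_isSW l.2.1).1
      have h3 : D.card = 0 := by rw [hD, Finset.card_empty]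
      omega
    rw [tsum_empty]
    exact bot_le
  obtain ⟨L, -, hL⟩ := lists_count D hD D.card
  set S : Finset (List V) := L.filter (fun l => l ∈ Traj (D : Set V) p q ∧ E l) with hS
  have hmem : ∀ l, l ∈ S ↔ l ∈ Traj (D : Set V) p q ∧ E l := by
    intro l
    rw [hS, Finset.mem_filter]
    constructor
    · exact fun h => h.2
    · intro h
      exact ⟨hL l (traj_length h.1) (fun x hx => h.1.2.2.2.2 x hx), h⟩
  have e1 : ∑' l : {l : List V // l ∈ Traj (D : Set V) p q ∧ E l}, xc ^ (l.1.length - 1) =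
      ∑ l ∈ S, xc ^ (l.length - 1) := by
    rw [← Finset.tsum_subtype]
    refine (Equiv.subtypeEquivRight (fun l => (hmem l).symm)).tsum_eq
      (fun l : {l // l ∈ S} => xc ^ (l.1.length - 1))
  rw [e1]
  have e2 : ∑ l ∈ S, xc ^ (l.length - 1) =
      ∑ n ∈ Finset.range D.card, ∑ l ∈ S.filter (fun l => l.length - 1 = n), xc ^ (l.length - 1) := by
    refine (Finset.sum_fiberwise_of_maps_to (fun l hl => ?_) _).symm
    rw [Finset.mem_range]
    have h1 := traj_length ((hmem l).1 hl).1
    have h2 := (traj_isSW ((hmem l).1 hl).1).1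
    omega
  rw [e2]
  have e3 : ∀ n ∈ Finset.range D.card,
      ∑ l ∈ S.filter (fun l => l.length - 1 = n), xc ^ (l.length - 1) ≤ ENNReal.ofReal Y := by
    intro n hn
    rw [Finset.mem_range] at hn
    rw [Finset.sum_congr rfl (g := fun _ => xc ^ n) (by
      intro l hl
      rw [(Finset.mem_filter.1 hl).2])]
    rw [Finset.sum_const, nsmul_eq_mul]
    have h1 := h n (by omega) (S.filter (fun l => l.length - 1 = n)) (by
      intro l hl
      obtain ⟨a1, a2⟩ := Finset.mem_filter.1 hl
      have a3 := (hmem l).1 a1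
      have a4 := traj_isSW a3.1
      rw [a2] at a4
      exact ⟨a4, a3.1.2.1, a3.2⟩)
    have hmu := Pool.Agent.Y981.QB.mu0_pos
    rw [xc_eq, ← ENNReal.ofReal_pow (by positivity), ← ENNReal.ofReal_natCast,
      ← ENNReal.ofReal_mul (Nat.cast_nonneg _)]
    refine ENNReal.ofReal_le_ofReal ?_
    calc ((S.filter (fun l => l.length - 1 = n)).card : ℝ) * mu0⁻¹ ^ n ≤
        mu0 ^ n * Y * mu0⁻¹ ^ n := mul_le_mul_of_nonneg_right h1 (by positivity)
      _ = Y := by
        rw [inv_pow]
        field_simp
  refine (Finset.sum_le_sum e3).trans ?_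
  rw [Finset.sum_const, Finset.card_range, nsmul_eq_mul, ← ENNReal.ofReal_natCast,
    ← ENNReal.ofReal_mul (Nat.cast_nonneg _)]

/-- the critical probability of a property -/
theorem crit_prob (D : Finset V) (p q : V) (E : List V → Prop) (Y z t : ℝ) (hY : 0 ≤ Y)
    (hz : 0 < z) (hZ : ENNReal.ofReal z ≤ Z (D : Set V) p q)
    (h : ∀ n, n + 1 ≤ D.card → ∀ F : Finset (List V),
      (∀ l ∈ F, IsSW p n l ∧ l.getLast? = some q ∧ E l) → (F.card : ℝ) ≤ mu0 ^ n * Y)
    (ht : D.card * Y ≤ t * z) (ht0 : 0 ≤ t) :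
    PE (D : Set V) p q E ≤ ENNReal.ofReal t := by
  have h1 := crit_upper D p q E Y hY h
  unfold PE
  refine ENNReal.div_le_of_le_mul ?_
  refine h1.trans ((ENNReal.ofReal_le_ofReal ht).trans ?_)
  rw [ENNReal.ofReal_mul ht0]
  exact mul_le_mul' le_rfl hZ

/-- `emb` and `pos` differ by a translation -/
theorem emb_sub (u v : V) : emb u - emb v = pos u - pos v := by
  have key : ∀ w : V, emb w = pos w + ⟨0, 1 / 2⟩ := by
    intro w
    unfold Pool.Agent.W832.HR.emb pos ht
    apply Complex.ext
    · simp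
    · simp only [Complex.add_im]
      rcases Int.emod_two_eq_zero_or_one (w.1 + w.2) with h | h
      · rw [if_pos (Int.even_iff.2 h), h]
        push_cast
        ring
      · rw [if_neg (by rw [Int.even_iff]; omega), h]
        push_cast
        ring
  rw [key, key]
  ring

theorem dst_emb (u v : V) : dst u v = ‖emb u - emb v‖ := by
  rw [emb_sub]
  rfl

end Pool.Agent.Y981.QB
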