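import Pool.Agent.Y981.QB.Fin0
import Pool.Agent.Y981.QB.Br
import Pool.Agent.Y858.QB.Det
import Pool.Agent.Y872.QB.Cnt
import Pool.Agent.Y25.QB.Main

set_option autoImplicit false

namespace Pool.Agent.Y981.QB

open H978R2.Hex

theorem s_main : S_MAIN :=
  Pool.Agent.Y25.QB.main s_light Pool.Agent.Y67.QB.cn
    (Pool.Agent.Y872.QB.cnt Pool.Agent.Y908.QB.split) Pool.Agent.Y858.QB.det

theorem fin : ∃ c C : ℝ, 0 < c ∧ c ≤ 1 ∧ 0 < C ∧ ∀ n : ℕ, 16 ≤ n →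
    prob n (fun ω => (n : ℝ) ^ (1 - c / Real.log (Real.log n)) ≤ diam ω) ≤
      C * Real.exp (-(n : ℝ) ^ (1 / 5 : ℝ)) ∧
    ∀ F : (Fin (n + 1) → V) → ℝ, (∀ ω ∈ saws n, F ω ≤ diam ω ^ 2) →
      mean n F ≤ C * (n : ℝ) ^ (2 - c / Real.log (Real.log n)) := final s_main

end Pool.Agent.Y981.QB
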