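import Pool.Agent.Y981.QB.LightP
import Pool.Agent.Y495.QB.Sym
import Pool.Agent.Y67.QB.CN
import Pool.Agent.Y655.QB.Win
import Pool.Agent.Y908.QB.Split
import Pool.Agent.Y475.QB.G1
import Pool.Agent.Y460.QB.G2
import Pool.Agent.Y154.QB.Geo2

set_option autoImplicit false

namespace Pool.Agent.Y981.QB

open H978R2.Hex

theorem s_geo : S_GEO := Pool.Agent.Y154.QB.geo Pool.Agent.Y475.QB.g1 Pool.Agent.Y460.QB.g2

theorem s_light : S_LIGHT :=
  light Pool.Agent.Y655.QB.win Pool.Agent.Y495.QB.sym Pool.Agent.Y67.QB.cn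
    Pool.Agent.Y908.QB.split s_geo

end Pool.Agent.Y981.QB
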