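import Pool.Agent.Y981.QB.OneCode
import Pool.Agent.H978R2.Hex.Geo

set_option autoImplicit false

/-! Light walks are rare: union bound over the codes. -/

namespace Pool.Agent.Y981.QB

open H978R2.Hex

theorem dst_le (γ : ℕ → V) (m : ℕ) (h : ∀ i < m, Adj (γ i) (γ (i + 1))) :
    ∀ b ≤ m, ∀ a ≤ b, dst (γ a) (γ b) ≤ (b : ℝ) - a := by
  intro b
  induction b with
  | zero =>
    intro _ a ha
    have : a = 0 := by omega
    subst this
    simp [dst]
  | succ b ih =>
    intro hb a ha
    rcases Nat.eq_or_lt_of_le ha with h1 | h1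
    · subst h1; simp [dst]
    · have h2 := ih (by omega) a (by omega)
      have h3 := norm_of_adj (h b (by omega))
      unfold dst at *
      have h4 := norm_sub_le_norm_sub_add_norm_sub (pos (γ a)) (pos (γ b)) (pos (γ (b + 1)))
      push_cast
      linarith

theorem wins_length (W j : ℤ) : ∀ (cs : List (Bool × ℤ × ℤ)) (p : ℤ × ℤ),
    (wins W j p cs).length = NS * (cs.filter (fun c => c.1)).length := by
  intro cs
  induction cs with
  | nil => intro p; simp [wins]
  | cons c cs ih =>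
    intro p
    rw [wins, List.length_append, ih]
    by_cases hc : c.1 = true
    · rw [List.filter_cons_of_pos (by simpa using hc)]
      simp [hc, subs]
      ring
    · rw [List.filter_cons_of_neg (by simpa using hc)]
      simp [hc]

/-- entries of the codes -/
noncomputable def ES : Finset (Bool × ℤ × ℤ) :=
  Finset.univ ×ˢ Finset.Icc (-12800) 12800 ×ˢ Finset.Icc (-12800) 12800

theorem ES_card : ES.card ≤ 2 ^ 31 := by
  simp [ES, Finset.card_product]

theorem ES_ne : ES.Nonempty := by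
  refine ⟨(true, 0, 0), ?_⟩
  simp [ES]

theorem mem_ES (c : Bool × ℤ × ℤ) : c ∈ ES ↔ |c.2.1| ≤ 12800 ∧ |c.2.2| ≤ 12800 := by
  simp [ES, abs_le]

set_option linter.constructorNameAsVariable false in
/-- number of light walks which end in the sector -/
theorem light_sector (hWIN : S_WIN) (hSPLIT : S_SPLIT) (hGEO : S_GEO) (K0 : ℝ) (hK0 : 0 ≤ K0)
    (hCN : ∀ (v : V) (n : ℕ) (F : Finset (List V)),
      (∀ l ∈ F, IsSW v n l) → (F.card : ℝ) ≤ mu0 ^ n * Real.exp (K0 * Real.log (n + 2) ^ 2))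
    (W lam m N : ℕ) (hW : 10 ^ 13 ≤ W) (hWe : Even W) (hlam : 10 ^ 13 ≤ lam)
    (hN : ∀ x : ℕ, (x : ℝ) ≤ (1 + 1 / 10 ^ 12) * lam / 6400 → x ≤ N) (v : V)
    (G : Finset (List V))
    (hG : ∀ l ∈ G, IsSW v m l ∧ Light (1 / 10 ^ 12) W lam m (gt l) ∧
      Sector (pos (gt l m) - pos (gt l 0))) :
    (G.card : ℝ) ≤ (3201 * ((N + 1) * 2 ^ (31 * N)) * (m + 1) * (m + 1) *
      (2 * m + 2)) *
      (mu0 ^ m * Real.exp (2 * K0 * Real.log (m + 2) ^ 2) *
        Real.exp (-(lam / 128 * Real.log 2))) := by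
  classical
  obtain ⟨L, hL1, hL2⟩ := lists_count ES ES_ne N
  set C : Finset (ℕ × List (Bool × ℤ × ℤ) × ℕ × ℕ × ℤ) := Finset.range 3201 ×ˢ L ×ˢ
    Finset.range (m + 1) ×ˢ Finset.range (m + 1) ×ˢ
      Finset.Icc (lev v - m - 1) (lev v + m) with hC
  set R : List V → (ℕ × List (Bool × ℤ × ℤ) × ℕ × ℕ × ℤ) → Prop := fun l c =>
    (lam : ℝ) / 12800 ≤ ((c.2.1.filter (fun c => c.1)).length : ℝ) ∧ c.2.2.1 < c.2.2.2.1 ∧
      c.2.2.2.1 ≤ m ∧ Cod W (wins W c.1 (lev v / W, v.2 / W) c.2.1) c.2.2.1 c.2.2.2.1 c.2.2.2.2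
        (gt l) with hR
  set Y : ℝ := mu0 ^ m * Real.exp (2 * K0 * Real.log (m + 2) ^ 2) *
        Real.exp (-(lam / 128 * Real.log 2)) with hY
  have hmu := mu0_pos
  have hY0 : 0 ≤ Y := by rw [hY]; positivity
  have hub := union_bound G C R Y ?_ ?_
  · refine hub.trans (mul_le_mul_of_nonneg_right ?_ hY0)
    have hc : C.card ≤ 3201 * (((N + 1) * ES.card ^ N) * ((m + 1) * ((m + 1) * (2 * m + 2)))) := by
      rw [hC, Finset.card_product, Finset.card_product, Finset.card_product, Finset.card_product,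
        Finset.card_range, Finset.card_range, Int.card_Icc]
      have : (lev v + m + 1 - (lev v - m - 1)).toNat = 2 * m + 2 := by omega
      rw [this]
      gcongr
    have hc1 : ES.card ^ N ≤ 2 ^ (31 * N) := by
      rw [pow_mul]
      exact Nat.pow_le_pow_left ES_card N
    have hc := hc.trans (Nat.mul_le_mul_left 3201 (Nat.mul_le_mul_right
      ((m + 1) * ((m + 1) * (2 * m + 2))) (Nat.mul_le_mul_left (N + 1) hc1)))
    have hc2 := (Nat.cast_le (α := ℝ)).mpr hc
    refine hc2.trans (le_of_eq ?_)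
    push_cast
    ring
  · intro l hl
    obtain ⟨h1, h2, h3⟩ := hG l hl
    have hadj : ∀ i < m, Adj (gt l i) (gt l (i + 1)) := fun i hi =>
      gt_adj h1.2.2.1 i (by rw [h1.1]; omega)
    obtain ⟨j, cs, a, b, H, hj, hcs, hent, hnum, hab, hbm, hev, hbok, q1, q2, q3, q4⟩ :=
      hGEO W lam m (gt l) hW hWe hlam hadj h2 h3
    have h0 : gt l 0 = v := gt_zero h1.2.1
    rw [h0] at hbok q4
    refine ⟨(j, cs, a, b, H), ?_, ?_⟩
    · rw [hC]
      simp only [Finset.mem_product, Finset.mem_range, Finset.mem_Icc]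
      have hcsL : cs ∈ L := by
        refine hL2 cs (hN _ hcs) ?_
        intro x hx
        rw [mem_ES]
        exact hent x hx
      refine ⟨by omega, hcsL, by omega, by omega, ?_⟩
      have h4 := lev_bound (gt l) m hadj b hbm
      rw [h0, q3, abs_le] at h4
      have : (b : ℤ) ≤ m := by exact_mod_cast hbm
      constructor <;> linarith [h4.1, h4.2]
    · exact ⟨hnum, hab, hbm, hev, hbok, q1, q2, q3, q4⟩
  · intro c hc G' hG' hR'
    rcases Finset.eq_empty_or_nonempty G' with h0 | ⟨l0, hl0⟩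
    · rw [h0, Finset.card_empty, Nat.cast_zero]
      exact hY0
    · obtain ⟨r1, r2, r3, _⟩ := hR' l0 hl0
      have h1 := one_code hWIN hSPLIT K0 hK0 hCN W m v
        (wins W c.1 (lev v / W, v.2 / W) c.2.1) c.2.2.1 c.2.2.2.1 c.2.2.2.2
        (le_trans (by norm_num) hW) r2 r3 G' (fun l hl => ⟨(hG l (hG' hl)).1, (hR' l hl).2.2.2⟩)
      refine h1.trans ?_
      rw [hY]
      refine mul_le_mul_of_nonneg_left ?_ (by positivity)
      rw [wins_length]
      set t := (c.2.1.filter (fun c => c.1)).length with ht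
      have e1 : (Real.sqrt 2)⁻¹ ^ (NS * t) = Real.exp (-(100 * t * Real.log 2)) := by
        have e2 : NS * t = 2 * (100 * t) := by unfold NS; ring
        rw [e2, pow_mul, inv_pow, Real.sq_sqrt (by norm_num), Real.exp_neg,
          show (100 * (t : ℝ) * Real.log 2) = ((100 * t : ℕ) : ℝ) * Real.log 2 by push_cast; ring,
          Real.exp_nat_mul, Real.exp_log (by norm_num), inv_pow]
      rw [e1]
      refine Real.exp_le_exp.mpr (neg_le_neg ?_)
      have hl2 : 0 ≤ Real.log 2 := Real.log_nonneg (by norm_num)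
      refine mul_le_mul_of_nonneg_right ?_ hl2
      linarith

theorem numer (K0 : ℝ) (N lam m : ℕ) (hK0 : 0 ≤ K0) (hlm : (lam : ℝ) ≤ m)
    (hm26 : (10 : ℝ) ^ 26 ≤ m) (hNle : (N : ℝ) ≤ (1 + 1 / 10 ^ 12) * (lam : ℝ) / 6400) :
    ((12 : ℕ) : ℝ) * ((3201 * ((N + 1) * 2 ^ (31 * N)) * (m + 1) * (m + 1) * (2 * m + 2)) *
        (mu0 ^ m * Real.exp (2 * K0 * Real.log (m + 2) ^ 2) *
          Real.exp (-(lam / 128 * Real.log 2)))) ≤
      mu0 ^ m * Real.exp ((2 * K0 + 5) * Real.log (m + 2) ^ 2 - 1 / 500 * lam) := by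
  have hmu := mu0_pos
  set x : ℝ := Real.log (m + 2) with hx
  have hx1 : 1 ≤ x := by
    rw [hx, Real.le_log_iff_exp_le (by positivity)]
    have := Real.exp_one_lt_d9
    have h10 : (3 : ℝ) ≤ 10 ^ 26 := by norm_num
    linarith
  have hN1 : (N : ℝ) + 1 ≤ m + 2 := by
    have h0 : (0 : ℝ) ≤ lam := Nat.cast_nonneg _
    have : (N : ℝ) ≤ lam := by
      refine hNle.trans ?_
      nlinarith
    linarith
  have hm0 : (0 : ℝ) ≤ m := Nat.cast_nonneg _
  have hN0 : (0 : ℝ) ≤ N := Nat.cast_nonneg _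
  have hpoly : 12 * (3201 * ((N : ℝ) + 1) * (m + 1) * (m + 1) * (2 * m + 2)) ≤
      Real.exp (5 * x ^ 2) := by
    have h1 : 12 * (3201 * ((N : ℝ) + 1) * (m + 1) * (m + 1) * (2 * m + 2)) ≤
        ((m : ℝ) + 2) ^ 5 := by
      have hA : (76824 : ℝ) ≤ m + 2 := by
        have h10 : (76824 : ℝ) ≤ 10 ^ 26 := by norm_num
        linarith
      have hB : (m : ℝ) + 1 ≤ m + 2 := by linarith
      have e : 12 * (3201 * ((N : ℝ) + 1) * (m + 1) * (m + 1) * (2 * m + 2)) =
          76824 * (N + 1) * (m + 1) * (m + 1) * (m + 1) := by ring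
      rw [e]
      calc (76824 : ℝ) * (N + 1) * (m + 1) * (m + 1) * (m + 1) ≤
          (m + 2) * (m + 2) * (m + 2) * (m + 2) * (m + 2) := by gcongr
        _ = ((m : ℝ) + 2) ^ 5 := by ring
    refine h1.trans ?_
    have h2 : ((m : ℝ) + 2) ^ 5 = Real.exp (5 * x) := by
      rw [show (5 * x) = ((5 : ℕ) : ℝ) * x by norm_num, Real.exp_nat_mul, hx,
        Real.exp_log (by positivity)]
    rw [h2]
    refine Real.exp_le_exp.mpr ?_
    nlinarith
  have hl2 : 0.6931471803 < Real.log 2 := Real.log_two_gt_d9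
  have hpow : (2 : ℝ) ^ (31 * N) ≤ Real.exp (31 * ((1 + 1 / 10 ^ 12) * (lam : ℝ) / 6400) *
      Real.log 2) := by
    have h1 : (2 : ℝ) ^ (31 * N) = Real.exp (31 * N * Real.log 2) := by
      rw [show (31 * (N : ℝ) * Real.log 2) = ((31 * N : ℕ) : ℝ) * Real.log 2 by push_cast; ring,
        Real.exp_nat_mul, Real.exp_log (by norm_num)]
    rw [h1]
    refine Real.exp_le_exp.mpr (mul_le_mul_of_nonneg_right ?_ (by linarith))
    linarith
  have hE : Real.exp (31 * ((1 + 1 / 10 ^ 12) * (lam : ℝ) / 6400) * Real.log 2) *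
      Real.exp (-(lam / 128 * Real.log 2)) ≤ Real.exp (-(1 / 500 * lam)) := by
    rw [← Real.exp_add]
    refine Real.exp_le_exp.mpr ?_
    have h0 : (0 : ℝ) ≤ lam := Nat.cast_nonneg _
    nlinarith [mul_nonneg h0 (by linarith : (0 : ℝ) ≤ Real.log 2 - 0.6931471803)]
  calc ((12 : ℕ) : ℝ) * ((3201 * ((N + 1) * 2 ^ (31 * N)) * (m + 1) * (m + 1) * (2 * m + 2)) *
        (mu0 ^ m * Real.exp (2 * K0 * x ^ 2) * Real.exp (-(lam / 128 * Real.log 2)))) =
      (12 * (3201 * ((N : ℝ) + 1) * (m + 1) * (m + 1) * (2 * m + 2))) *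
        (mu0 ^ m * Real.exp (2 * K0 * x ^ 2)) *
        (2 ^ (31 * N) * Real.exp (-(lam / 128 * Real.log 2))) := by push_cast; ring
    _ ≤ Real.exp (5 * x ^ 2) * (mu0 ^ m * Real.exp (2 * K0 * x ^ 2)) *
        (Real.exp (31 * ((1 + 1 / 10 ^ 12) * (lam : ℝ) / 6400) * Real.log 2) *
          Real.exp (-(lam / 128 * Real.log 2))) := by gcongr
    _ ≤ Real.exp (5 * x ^ 2) * (mu0 ^ m * Real.exp (2 * K0 * x ^ 2)) *
        Real.exp (-(1 / 500 * lam)) := mul_le_mul_of_nonneg_left hE (by positivity)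
    _ = mu0 ^ m * Real.exp ((2 * K0 + 5) * x ^ 2 - 1 / 500 * lam) := by
        rw [show (2 * K0 + 5) * x ^ 2 - 1 / 500 * (lam : ℝ) =
          5 * x ^ 2 + 2 * K0 * x ^ 2 + -(1 / 500 * lam) by ring, Real.exp_add, Real.exp_add]
        ring

/-- **LIGHT** -/
theorem light (hWIN : S_WIN) (hSYM : S_SYM) (hCN : S_CN) (hSPLIT : S_SPLIT) (hGEO : S_GEO) :
    S_LIGHT := by
  classical
  obtain ⟨T, hT1, hT2, hT3, hT4⟩ := hSYM
  obtain ⟨K0, hK0, hCN⟩ := hCN
  refine ⟨2 * K0 + 5, 1 / 500, by linarith, by norm_num, ?_⟩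
  intro W lam m hW hWe hlam v F hF
  have hmu := mu0_pos
  rcases Finset.eq_empty_or_nonempty F with h0 | ⟨l0, hl0⟩
  · rw [h0, Finset.card_empty, Nat.cast_zero]
    positivity
  · -- size of `m`
    have hm : (lam : ℝ) * W ≤ m := by
      obtain ⟨h1, h2⟩ := hF l0 hl0
      have h3 := dst_le (gt l0) m (fun i hi => gt_adj h1.2.2.1 i (by rw [h1.1]; omega)) m le_rfl 0
        (Nat.zero_le _)
      have h4 := h2.1
      simp only [Nat.cast_zero, sub_zero] at h3
      linarith
    have hW' : (10 : ℝ) ^ 13 ≤ W := by exact_mod_cast hW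
    have hlam' : (10 : ℝ) ^ 13 ≤ lam := by exact_mod_cast hlam
    set N : ℕ := ⌊(1 + 1 / 10 ^ 12) * (lam : ℝ) / 6400⌋₊ with hN
    have hub := union_bound F (Finset.univ : Finset (Fin 12))
      (fun l i => Sector (pos (T i (gt l m)) - pos (T i (gt l 0))))
      ((3201 * ((N + 1) * 2 ^ (31 * N)) * (m + 1) * (m + 1) * (2 * m + 2)) *
        (mu0 ^ m * Real.exp (2 * K0 * Real.log (m + 2) ^ 2) *
          Real.exp (-(lam / 128 * Real.log 2))))
      (fun l _ => by
        obtain ⟨i, hi⟩ := hT4 (gt l 0) (gt l m)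
        exact ⟨i, Finset.mem_univ _, hi⟩)
      (by
        intro i _ G hG hR
        have hinj : Function.Injective (List.map (T i)) := List.map_injective_iff.mpr (hT1 i)
        have h1 := light_sector hWIN hSPLIT hGEO K0 hK0 hCN W lam m N hW hWe hlam
          (fun x hx => Nat.le_floor hx) (T i v) (G.image (List.map (T i))) (by
            intro l' hl'
            obtain ⟨l, hl, rfl⟩ := Finset.mem_image.mp hl'
            obtain ⟨h1, h2⟩ := hF l (hG hl)
            have hlen := h1.1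
            have e : ∀ i' ≤ m, gt (l.map (T i)) i' = T i (gt l i') := fun i' hi' =>
              gt_map (T i) l i' (by omega)
            refine ⟨isSW_map (T i) (hT1 i) (hT2 i) h1, ?_, ?_⟩
            · obtain ⟨p1, k, t, p2, p3, p4, p5, p6, p7⟩ := h2
              have hmono1 : ∀ d j, j + d ≤ k → t j ≤ t (j + d) := by
                intro d
                induction d with
                | zero => intro j _; exact le_rfl
                | succ d ih =>
                  intro j hj
                  exact (ih j (by omega)).trans (p4 (j + d) (by omega)).le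
              have hmono : ∀ j ≤ k, t j ≤ t k := by
                intro j hj
                have := hmono1 (k - j) j (by omega)
                rwa [Nat.add_sub_cancel' hj] at this
              refine ⟨?_, k, t, p2, p3, p4, p5, ?_, ?_⟩
              · rw [e 0 (by omega), e m le_rfl, hT3]; exact p1
              · intro j hj i' hi1 hi2
                have h8 := hmono (j + 1) (by omega)
                rw [e i' (by omega), e (t j) (by omega), hT3]
                exact p6 j hj i' hi1 hi2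
              · intro i' hi1 hi2
                rw [e i' (by omega), e (t k) (by omega), hT3]
                exact p7 i' hi1 hi2
            · rw [e 0 (by omega), e m le_rfl]
              exact hR l hl)
        rw [Finset.card_image_of_injective _ hinj] at h1
        exact h1)
    rw [Finset.card_univ, Fintype.card_fin] at hub
    refine hub.trans ?_
    have hNle : (N : ℝ) ≤ (1 + 1 / 10 ^ 12) * (lam : ℝ) / 6400 := Nat.floor_le (by positivity)
    have hlm : (lam : ℝ) ≤ m := by
      refine le_trans ?_ hm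
      nlinarith
    have hm26 : (10 : ℝ) ^ 26 ≤ m := by
      refine le_trans ?_ hm
      have h1 := mul_le_mul hlam' hW' (by positivity) (by positivity)
      have h2 : (10 : ℝ) ^ 26 = (10 : ℝ) ^ 13 * (10 : ℝ) ^ 13 := by norm_num
      rw [h2]
      exact h1
    exact numer K0 N lam m hK0 hlm hm26 hNle

end Pool.Agent.Y981.QB
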