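import Pool.Agent.Y981.QB.Uni

set_option autoImplicit false

/-! The number of the light walks with a given code. -/

namespace Pool.Agent.Y981.QB

open H978R2.Hex

/-- the conditions on a walk given by a code -/
def Cod (W : ℕ) (B : List (ℤ × ℤ)) (a b : ℕ) (H : ℤ) (γ : ℕ → V) : Prop :=
  Even ((γ a).1 + (γ a).2) ∧
    BOK (16 * W) (lev (γ a)) B H ∧
    (∀ i, a < i → i ≤ b → lev (γ a) + 1 ≤ lev (γ i)) ∧
    (∀ i, a ≤ i → i < b → lev (γ i) ≤ H) ∧ lev (γ b) = H + 1 ∧
    ∀ p ∈ B, ∀ i, a ≤ i → i ≤ b →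
      p.1 + 1 ≤ lev (γ i) → lev (γ i) ≤ p.1 + 2 * (16 * W) →
      p.2 ≤ (γ i).2 ∧ (γ i).2 ≤ p.2 + 16 * W - 1

theorem mu0_pos : 0 < mu0 := by
  unfold mu0
  positivity

theorem mid_of_cod {W m : ℕ} {v : V} {B : List (ℤ × ℤ)} {a b : ℕ} {H : ℤ} (hab : a < b)
    (hb : b ≤ m) {l' : List V} (h : IsSW v m l') (hc : Cod W B a b H (gt l')) :
    Mid (gt l' a) H (16 * W) B ((l'.drop a).take (b - a + 1)) := by
  obtain ⟨h1, h2, h3, h4⟩ := h
  obtain ⟨c1, c2, c3, c4, c5, c6⟩ := hc
  set l := (l'.drop a).take (b - a + 1) with hl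
  have hlen : l.length = b - a + 1 := by
    rw [hl, List.length_take, List.length_drop, h1]; omega
  have key : ∀ i (hi : i < l.length), l[i] = gt l' (a + i) := by
    intro i hi
    rw [gt_eq l' (a + i) (by omega)]
    simp [hl]
  refine ⟨?_, (h3.drop _).take _, ?_, by omega, ?_, ?_, ?_, ?_⟩
  · have h0 : 0 < l.length := by omega
    have := key 0 h0
    rw [List.head?_eq_getElem?, List.getElem?_eq_getElem h0, this]
    rfl
  · exact (h4.sublist (List.drop_sublist _ _)).sublist (List.take_sublist _ _)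
  · intro x hx
    obtain ⟨i, hi, rfl⟩ := List.getElem_of_mem hx
    rw [List.length_tail] at hi
    have : l.tail[i] = l[i + 1]'(by omega) := by simp
    rw [this, key (i + 1) (by omega)]
    exact c3 _ (by omega) (by omega)
  · intro x hx
    obtain ⟨i, hi, rfl⟩ := List.getElem_of_mem hx
    rw [List.length_dropLast] at hi
    have : l.dropLast[i] = l[i]'(by omega) := by simp
    rw [this, key i (by omega)]
    exact c4 _ (by omega) (by omega)
  · intro x hx
    rw [List.getLast?_eq_getElem?, List.getElem?_eq_getElem (by omega)] at hx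
    simp only [Option.mem_def, Option.some.injEq] at hx
    rw [← hx, key _ (by omega)]
    have : a + (l.length - 1) = b := by omega
    rw [this]
    exact c5
  · intro p hp x hx
    obtain ⟨i, hi, rfl⟩ := List.getElem_of_mem hx
    rw [key i hi]
    exact c6 p hp _ (by omega) (by omega)

theorem one_code (hWIN : S_WIN) (hSPLIT : S_SPLIT) (K0 : ℝ) (hK0 : 0 ≤ K0)
    (hCN : ∀ (v : V) (n : ℕ) (F : Finset (List V)),
      (∀ l ∈ F, IsSW v n l) → (F.card : ℝ) ≤ mu0 ^ n * Real.exp (K0 * Real.log (n + 2) ^ 2))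
    (W m : ℕ) (v : V) (B : List (ℤ × ℤ)) (a b : ℕ) (H : ℤ) (hW : 1 ≤ W) (hab : a < b) (hb : b ≤ m)
    (G : Finset (List V)) (hG : ∀ l ∈ G, IsSW v m l ∧ Cod W B a b H (gt l)) :
    (G.card : ℝ) ≤ mu0 ^ m * Real.exp (2 * K0 * Real.log (m + 2) ^ 2) *
      (Real.sqrt 2)⁻¹ ^ B.length := by
  have hmu := mu0_pos
  have hlog : ∀ k : ℕ, k ≤ m → Real.exp (K0 * Real.log (k + 2) ^ 2) ≤
      Real.exp (K0 * Real.log (m + 2) ^ 2) := by
    intro k hk
    have h0 : (0 : ℝ) ≤ Real.log (k + 2) := Real.log_nonneg (by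
      have : (0 : ℝ) ≤ k := Nat.cast_nonneg _
      linarith)
    have h1 : Real.log (k + 2) ≤ Real.log (m + 2) := Real.log_le_log (by positivity) (by
      have : (k : ℝ) ≤ m := by exact_mod_cast hk
      linarith)
    exact Real.exp_le_exp.mpr (mul_le_mul_of_nonneg_left (pow_le_pow_left₀ h0 h1 2) hK0)
  have h := hSPLIT m a b (mu0 ^ a * Real.exp (K0 * Real.log (m + 2) ^ 2))
    (mu0 ^ (b - a) * (Real.sqrt 2)⁻¹ ^ B.length)
    (mu0 ^ (m - b) * Real.exp (K0 * Real.log (m + 2) ^ 2)) G hab.le hb (by positivity)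
    (by positivity) (by positivity) (fun l hl => (hG l hl).1.1) ?_ ?_ ?_
  · refine h.trans (le_of_eq ?_)
    have e1 : mu0 ^ m = mu0 ^ a * mu0 ^ (b - a) * mu0 ^ (m - b) := by
      rw [← pow_add, ← pow_add]
      congr 1
      omega
    have e2 : Real.exp (2 * K0 * Real.log (m + 2) ^ 2) =
        Real.exp (K0 * Real.log (m + 2) ^ 2) * Real.exp (K0 * Real.log (m + 2) ^ 2) := by
      rw [← Real.exp_add]
      congr 1
      ring
    rw [e1, e2]
    ring
  · intro G' hG'
    have := hCN v a G' (by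
      intro l hl
      obtain ⟨l', hl', rfl⟩ := hG' l hl
      exact isSW_take (hG l' hl').1 (by omega))
    exact this.trans (mul_le_mul_of_nonneg_left (hlog a (by omega)) (by positivity))
  · intro u G' hG'
    rcases Finset.eq_empty_or_nonempty G' with h0 | ⟨l0, hl0⟩
    · rw [h0, Finset.card_empty, Nat.cast_zero]
      positivity
    · have hmid : ∀ l ∈ G', Mid u H (16 * W) B l ∧ l.length = b - a + 1 ∧
          Even (u.1 + u.2) ∧ BOK (16 * W) (lev u) B H := by
        intro l hl
        obtain ⟨hu, l', hl', he⟩ := hG' l hl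
        have hg := hG l' hl'
        have h1 := mid_of_cod hab hb hg.1 hg.2
        have h2 : gt l' a = u := by
          have h3 := h1.1
          rw [← he, hu] at h3
          exact (Option.some.inj h3).symm
        rw [← he, h2] at h1
        refine ⟨h1, ?_, ?_, ?_⟩
        · rw [he, List.length_take, List.length_drop, hg.1.1]; omega
        · rw [← h2]; exact hg.2.1
        · rw [← h2]; exact hg.2.2.1
      have h1 := hWIN u H (16 * W) B G' (hmid l0 hl0).2.2.1 (by
        have : (1 : ℤ) ≤ W := by exact_mod_cast hW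
        linarith) (hmid l0 hl0).2.2.2 (fun l hl => (hmid l hl).1)
      have h2 : ∑ l ∈ G', (mu0⁻¹) ^ (l.length - 1) = G'.card * (mu0⁻¹) ^ (b - a) := by
        rw [Finset.sum_congr rfl (g := fun _ => (mu0⁻¹) ^ (b - a)) (by
          intro l hl
          rw [(hmid l hl).2.1]
          rfl)]
        rw [Finset.sum_const, nsmul_eq_mul]
      rw [h2] at h1
      have h3 : (G'.card : ℝ) = mu0 ^ (b - a) * (G'.card * (mu0⁻¹) ^ (b - a)) := by
        rw [inv_pow]
        field_simp
      rw [h3]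
      exact mul_le_mul_of_nonneg_left h1 (by positivity)
  · intro u G' hG'
    have := hCN u (m - b) G' (by
      intro l hl
      obtain ⟨hu, l', hl', rfl⟩ := hG' l hl
      exact isSW_drop (hG l' hl').1 hb hu)
    exact this.trans (mul_le_mul_of_nonneg_left (hlog (m - b) (by omega)) (by positivity))

end Pool.Agent.Y981.QB
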